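import Pool.Agent.H90.RF.LibaE

/-!
# MP_609556_an, module LIBA: the limit environment at maximal points of `F_a`
-/

set_option autoImplicit false

open MeasureTheory Set Filter Topology Metric
open Pool.Agent.H29.TF (hk P hk_pos hk_nonneg integrable_hk integrable_hk_sub)
open Pool.Agent.H91.RD Pool.Agent.H91.RF

namespace Pool.Agent.H90.RF.LIBA

variable {N : ℕ}

theorem ndir_mono {U : Set (E N)} {η η' : ℝ} {x e : E N} (h : NDir U η x e) (h' : η ≤ η') :
    NDir U η' x e := by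
  obtain ⟨h1, ξ, e0, h2, h3⟩ := h
  exact ⟨h1, ξ, e0, h2, h3.trans h'⟩

theorem unif_comp {F : ℕ → ℝ → E N → ℝ} {G : ℝ → E N → ℝ}
    (h : ∀ R > 0, ∀ r > 0, TendstoUniformlyOn (fun n (p : ℝ × E N) => F n p.1 p.2)
      (fun p => G p.1 p.2) atTop (Icc (-R) (-r) ×ˢ closedBall 0 R)) {σ : ℕ → ℕ}
    (hσ : StrictMono σ) :
    ∀ R > 0, ∀ r > 0, TendstoUniformlyOn (fun n (p : ℝ × E N) => F (σ n) p.1 p.2)
      (fun p => G p.1 p.2) atTop (Icc (-R) (-r) ×ˢ closedBall 0 R) := by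
  intro R hR r hr V hV
  exact hσ.tendsto_atTop.eventually (h R hR r hr V hV)

theorem limAt_comp {u : ℝ → E N → ℝ} {tn : ℕ → ℝ} {xn : ℕ → E N} {v : ℝ → E N → ℝ}
    (h : LimAt u tn xn v) {σ : ℕ → ℕ} (hσ : StrictMono σ) :
    LimAt u (fun n => tn (σ n)) (fun n => xn (σ n)) v := by
  intro R hR V hV
  exact hσ.tendsto_atTop.eventually (h R hR V hV)

/-- the limit profile is steady in the moving frame up to the time `0` -/
theorem v_steady {f : ℝ → ℝ} {v : ℝ → E N → ℝ} (hv : Ent f v) {w : E N}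
    (h : ∀ t t' : ℝ, t < 0 → t' < 0 → ∀ x, v t' (x + (t' - t) • w) = v t x) {t : ℝ} (ht : t ≤ 0)
    (x : E N) : v t x = v 0 (x - t • w) := by
  rcases eq_or_lt_of_le ht with h0 | h0
  · rw [h0, zero_smul, sub_zero]
  have hc : ContinuousAt (fun p : ℝ × E N => v p.1 p.2) (0, x - t • w) :=
    (hv.1 (-1)).cont.continuousAt (prod_mem_nhds (Ioi_mem_nhds (by simp)) univ_mem)
  have h1 : Tendsto (fun t' : ℝ => (t', x + (t' - t) • w)) (𝓝[<] 0) (𝓝 (0, x - t • w)) := by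
    have h2 : ContinuousAt (fun t' : ℝ => (t', x + (t' - t) • w)) 0 := by fun_prop
    have h3 := h2.tendsto.mono_left (nhdsWithin_le_nhds (s := Iio 0))
    have h4 : x + ((0 : ℝ) - t) • w = x - t • w := by rw [zero_sub, neg_smul]; abel
    rwa [h4] at h3
  have h2 := hc.tendsto.comp h1
  have h3 : Tendsto (fun _ : ℝ => v t x) (𝓝[<] 0) (𝓝 (v 0 (x - t • w))) := by
    refine h2.congr' ?_
    filter_upwards [self_mem_nhdsWithin] with t' ht'
    exact h t t' h0 ht' x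
  exact tendsto_nhds_unique tendsto_const_nhds h3

/-- representation at the time `0` -/
theorem rep (hKINV : T_KINV) {W ζ : ℝ → E N → ℝ} {w : E N}
    (hst : ∀ t ≤ 0, ∀ x, W t x = W 0 (x - t • w))
    (hζ : ∀ t < 0, ∀ y, ζ (-1) (y + (-1 - t) • w) = ζ t y)
    (hrep : ∀ s t, s < t → t < 0 → ∀ x, Integrable (fun y => gk W t x s y * ζ s y) ∧
        ζ t x = ∫ y, gk W t x s y * ζ s y) {s : ℝ} (hs : 0 < s) (x : E N) :
    Integrable (fun y => gk W 0 x (-s) y * ζ (-1) ((y + s • w) - w)) ∧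
      ζ (-1) (x - w) = ∫ y, gk W 0 x (-s) y * ζ (-1) ((y + s • w) - w) := by
  have hloc : ∀ y, gk W 0 x (-s) y = gk W (-1) (x - w) (-1 - s) (-w + y) := by
    intro y
    have h1 := (hKINV N W).1 (-1) (-w) 0 x (-s) y
    have h2 := (hKINV N W).2 (fun t x => W (-1 + t) (-w + x)) (-s) 0 (by linarith)
      (fun r hr z => by
        show W r z = W (-1 + r) (-w + z)
        rw [hst r hr.2.le z, hst (-1 + r) (by linarith [hr.2]) (-w + z)]
        congr 1
        rw [add_smul, neg_one_smul]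
        abel) x y
    rw [h2, h1, add_zero]
    congr 1
    abel
  have hr := hrep (-1 - s) (-1) (by linarith) (by norm_num) (x - w)
  have hfun : (fun y => gk W 0 x (-s) y * ζ (-1) ((y + s • w) - w)) =
      fun y => (fun y' => gk W (-1) (x - w) (-1 - s) y' * ζ (-1 - s) y') (-w + y) := by
    funext y
    simp only
    rw [hloc y, ← hζ (-1 - s) (by linarith) (-w + y)]
    congr 2
    rw [show (-1 : ℝ) - (-1 - s) = s by ring]
    abel
  rw [hfun]
  refine ⟨hr.1.comp_add_left (-w), ?_⟩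
  rw [integral_add_left_eq_self
    (fun y' => gk W (-1) (x - w) (-1 - s) y' * ζ (-1 - s) y') (-w)]
  exact hr.2

/-- [LIBA] -/
theorem liba (hLCPT : T_LCPT) (hEXT : T_EXT) (hUPB : T_UPB) (hREP : T_KREP) (hKER : T_KER)
    (hNSUP : T_NSUP) (hLINU : T_LINU) (hKINV : T_KINV) (hFPC : T_FPC) (hCONV : T_CONV) :
    T_LIBA := by
  intro N f K cc C0 C9 η0 U u hS hcc hF _ α hα M _ hAt tn xn en an e a hseq hdir het han hat hmx
  obtain ⟨htt, hsq⟩ := hseq
  -- properties in boxes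
  have hAtQ : AtR U cc (fun ε t x e => 0 < -dx u e t x ∧ ∀ a, ‖a‖ = α → inner ℝ a e = 0 →
      Fa u cc e a t x ≤ (M + ε) * -dx u e t x) := by
    intro ε hε
    obtain ⟨η1, hη1, T1, hT1, h1⟩ := hAt ε hε
    obtain ⟨T2, hT2, h2⟩ := hF.pos
    refine ⟨min η1 η0, lt_min hη1 hF.hη0, max T1 T2, lt_max_of_lt_left hT1,
      fun t ht x e hd hi => ?_⟩
    have ht1 : T1 ≤ t := (le_max_left _ _).trans ht
    have ht2 : T2 ≤ t := (le_max_right _ _).trans ht
    have ht0 : 0 ≤ t := hT1.le.trans ht1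
    refine ⟨(h2 t ht2 x e (ndir_mono hd (min_le_right _ _)) (hi.trans
      (mul_le_mul_of_nonneg_right (min_le_right _ _) ht0))).1, ?_⟩
    exact h1 t ht1 x e (ndir_mono hd (min_le_left _ _)) (hi.trans
      (mul_le_mul_of_nonneg_right (min_le_left _ _) ht0))
  have hbox : ∀ ε > 0, ∃ ρ > 0, ∀ᶠ n in atTop, ∀ t ∈ Icc (-(ρ * tn n)) 0, ∀ y,
      ‖y‖ ≤ ρ * tn n → 0 < -dx u (en n) (tn n + t) (xn n + y) ∧
      Fa u cc (en n) (an n) (tn n + t) (xn n + y) ≤
        (M + ε) * -dx u (en n) (tn n + t) (xn n + y) := by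
    intro ε hε
    obtain ⟨ρ, hρ, T, hT, h1⟩ := hUPB N U cc _ hS.condC hS.ne hcc hAtQ ε hε
    refine ⟨ρ, hρ, ?_⟩
    filter_upwards [hdir ρ hρ, hsq ρ hρ, htt.eventually_ge_atTop T] with n h2 h3 h4 t ht y hy
    obtain ⟨h5, h6⟩ := h1 (tn n) h4 (xn n) (en n) h2 h3.2 (tn n + t)
      ⟨by linarith [ht.1], by linarith [ht.2]⟩ (xn n + y) (by
        rw [dist_eq_norm, add_sub_cancel_left]; exact hy)
    exact ⟨h5, h6 (an n) (han n).1 (han n).2⟩
  -- the lower bound of the slope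
  have hlow : ∀ᶠ n in atTop, Real.exp (-(tn n / 2)) ≤ -dx u (en n) (tn n) (xn n) := by
    obtain ⟨T, hT, h1⟩ := hF.low (1 / 4) (by norm_num)
    have hC9 : 0 < C9 := by linarith [hF.hC9]
    filter_upwards [hdir η0 hF.hη0, hsq η0 hF.hη0, hsq (1 / (4 * C9)) (by positivity),
      htt.eventually_ge_atTop T] with n h2 h3 h4 h5
    refine le_trans (Real.exp_le_exp.2 ?_) (h1 (tn n) h5 (xn n) (en n) h2 h3.2)
    have h6 : C9 * |infDist (xn n) U - cc * tn n| ≤ tn n / 4 := by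
      calc C9 * |infDist (xn n) U - cc * tn n| ≤ C9 * (1 / (4 * C9) * tn n) :=
            mul_le_mul_of_nonneg_left h4.2 hC9.le
        _ = tn n / 4 := by field_simp
    linarith
  have hpos : ∀ᶠ n in atTop, 0 < -dx u (en n) (tn n) (xn n) :=
    hlow.mono fun n hn => (Real.exp_pos _).trans_le hn
  obtain ⟨n0, hn0⟩ := eventually_atTop.1 ((htt.eventually_ge_atTop 2).and
    ((hdir 1 one_pos).and hpos))
  have hσ' : StrictMono (fun n : ℕ => n0 + n) := fun i j h => Nat.add_lt_add_left h n0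
  have hσt := hσ'.tendsto_atTop
  have hSq : Sq f K U u cc α M (fun n => tn (n0 + n)) (fun n => xn (n0 + n))
      (fun n => en (n0 + n)) (fun n => an (n0 + n)) e a :=
    { reac := hS.reac
      lip := hS.lip
      sol := hS.sol
      t2 := fun n => (hn0 (n0 + n) (by omega)).1
      tt := htt.comp hσt
      e1 := fun n => (hn0 (n0 + n) (by omega)).2.1.1
      et := het.comp hσt
      a1 := fun n => (han _).1
      att := hat.comp hσt
      pos := fun n => (hn0 (n0 + n) (by omega)).2.2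
      low := hσt.eventually hlow
      box := fun ε hε => by
        obtain ⟨ρ, hρ, h1⟩ := hbox ε hε
        exact ⟨ρ, hρ, hσt.eventually h1⟩
      mx := fun ε hε => hσt.eventually (hmx ε hε) }
  -- extraction
  obtain ⟨σ0, v, hσ0, hv, hl0⟩ := hEXT N f K U u hS.lip hS.sol _ (fun n => xn (n0 + n)) hSq.tt
  have hSq0 := hSq.comp hσ0
  have hl0' : LimAt u (fun n => tn (n0 + σ0 n)) (fun n => xn (n0 + σ0 n)) v := hl0
  have hW : Pt K (potE f v) :=
    (hCONV N f K U u _ _ v hS.reac hS.lip hS.sol hSq0.tt hv hl0').2.2.2.2.1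
  obtain ⟨σ1, ζ, hσ1, hz1, hzc, hzr⟩ := ext_z hLCPT hREP hKER hNSUP hLINU hFPC hcc hα hSq0 hv
    hl0' hW
  have hSq1 := hSq0.comp hσ1
  have hl1 := limAt_comp hl0' hσ1
  obtain ⟨σ2, hσ2, hH⟩ := ext_h hLCPT hREP hKER hNSUP hLINU hFPC hcc hα hSq1 hv hl1 hW hz1
  have hSq2 := hSq1.comp hσ2
  have hl2 := limAt_comp hl1 hσ2
  have hz2 := unif_comp (F := fun n => zf u (tn (n0 + σ0 (σ1 n))) (xn (n0 + σ0 (σ1 n)))
    (en (n0 + σ0 (σ1 n)))) hz1 hσ2
  set w := wv cc α M e a with hw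
  have hvs : ∀ t ≤ 0, ∀ x, v t x = v 0 (x - t • w) := fun t ht x =>
    v_steady hv (fun t t' ht ht' x => v_transport hLINU hcc hα hSq2 hH hv hl2 ht ht' x) ht x
  have hWs : ∀ t ≤ 0, ∀ x, potE f v t x = potE f v 0 (x - t • w) := fun t ht x => by
    unfold potE; rw [hvs t ht x]
  have hζs : ∀ t < 0, ∀ y, ζ (-1) (y + (-1 - t) • w) = ζ t y := fun t ht y =>
    z_transport hcc hα hSq2 hH hz2 hzc ht (by norm_num) y
  have hζp : ∀ s > 0, ∀ y, ζ (-1) ((y + s • w) - w) = ζ (-s) y := fun s hs y => by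
    rw [← hζs (-s) (by linarith) y]
    congr 1
    rw [sub_neg_eq_add, add_smul, neg_one_smul]
    abel
  refine ⟨fun n => n0 + σ0 (σ1 (σ2 n)), potE f v, fun x => ζ (-1) (x - w),
    hσ'.comp (hσ0.comp (hσ1.comp hσ2)), hW, fun t _ x => pot_lim hFPC hSq2 hv hl2 t x, hWs,
    ?_, ?_, fun s hs x => rep hKINV hWs hζs hzr hs x, ?_⟩
  · have h1 : Continuous fun x : E N => ((-1 : ℝ), x - w) := by fun_prop
    exact hzc.comp_continuous h1 fun x => ⟨by simp, mem_univ _⟩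
  · intro x
    obtain ⟨ρ, hρ, h1⟩ := comb hSq2 one_pos
    refine ge_of_tendsto (pt_of_unif (F := fun n => zf u (tn (n0 + σ0 (σ1 (σ2 n))))
      (xn (n0 + σ0 (σ1 (σ2 n)))) (en (n0 + σ0 (σ1 (σ2 n))))) hz2 (by norm_num : (-1 : ℝ) < 0)
      (x - w)) ?_
    filter_upwards [h1, hSq2.tt.eventually_ge_atTop ((1 + ‖x - w‖) / ρ)] with n h2 h3
    rw [div_le_iff₀ hρ] at h3
    exact (h2.1 (-1) ⟨by linarith [norm_nonneg (x - w)], by norm_num⟩ (x - w)
      (by linarith)).1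
  · intro s hs R hR
    have h1 := Metric.tendstoUniformlyOn_iff.1 (hz2 (R + s) (by positivity) s hs)
    rw [Metric.tendstoUniformlyOn_iff]
    intro ε hε
    filter_upwards [h1 ε hε] with n hn y hy
    have h2 := hn (-s, y) ⟨⟨by linarith, le_rfl⟩, by
      rw [mem_closedBall_zero_iff] at hy ⊢
      linarith⟩
    show dist (ζ (-1) ((y + s • w) - w)) _ < ε
    rw [hζp s hs y]
    unfold zf at h2
    rw [neg_div_neg_eq] at h2
    exact h2

end Pool.Agent.H90.RF.LIBA
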