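import Pool.Agent.H91.RF.TargetsK2
import Pool.Agent.H73.RF.TLIN
import Pool.Agent.H76.RF.LINU
import Pool.Agent.H4.RF.KEX

/-!
# MP_609556_an, module LIBA, part A: linear solutions (combinations, translation, tails)
-/

set_option autoImplicit false

open MeasureTheory Set Filter Topology Metric
open Pool.Agent.H29.TF (hk P hk_pos hk_nonneg integrable_hk integrable_hk_sub)
open Pool.Agent.H91.RD Pool.Agent.H91.RF

namespace Pool.Agent.H90.RF.LIBA

variable {N : ℕ}

theorem meas_slice {V z : ℝ → E N → ℝ} {a b : ℝ} (h : LinD V a b z) {s : ℝ} (h1 : a ≤ s)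
    (h2 : s ≤ b) : Measurable (z s) := by
  rcases eq_or_lt_of_le h1 with h3 | h3
  · rw [← h3]; exact h.meas
  · exact (Pool.Agent.H76.RF.slice h.cont (show s ∈ Ioc a b from ⟨h3, h2⟩)).measurable

/-- linear combinations -/
theorem lin_comb {K : ℝ} {V z1 z2 : ℝ → E N → ℝ} {a b : ℝ} (hV : Pt K V) (h1 : LinD V a b z1)
    (h2 : LinD V a b z2) (c1 c2 : ℝ) : LinD V a b (fun t x => c1 * z1 t x + c2 * z2 t x) where
  bdd := by
    obtain ⟨M1, hM1⟩ := h1.bdd
    obtain ⟨M2, hM2⟩ := h2.bdd
    refine ⟨|c1| * M1 + |c2| * M2, fun t ht x => (abs_add_le _ _).trans ?_⟩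
    rw [abs_mul, abs_mul]
    exact add_le_add (mul_le_mul_of_nonneg_left (hM1 t ht x) (abs_nonneg _))
      (mul_le_mul_of_nonneg_left (hM2 t ht x) (abs_nonneg _))
  meas := (h1.meas.const_mul c1).add (h2.meas.const_mul c2)
  cont := (continuousOn_const.mul h1.cont).add (continuousOn_const.mul h2.cont)
  duh := by
    intro s t has hst htb x
    have hts : 0 < t - s := by linarith
    obtain ⟨M1, hM1⟩ := h1.bdd
    obtain ⟨M2, hM2⟩ := h2.bdd
    have i1 : Integrable (fun y => hk (t - s) (x - y) * (c1 * z1 s y)) :=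
      Pool.Agent.H29.TF.integrable_hk_mul hts
        ((meas_slice h1 has (hst.le.trans htb)).const_mul c1).aestronglyMeasurable
        (C := |c1| * M1) (fun y => by
          rw [abs_mul]
          exact mul_le_mul_of_nonneg_left (hM1 s ⟨has, hst.le.trans htb⟩ y) (abs_nonneg _)) x
    have i2 : Integrable (fun y => hk (t - s) (x - y) * (c2 * z2 s y)) :=
      Pool.Agent.H29.TF.integrable_hk_mul hts
        ((meas_slice h2 has (hst.le.trans htb)).const_mul c2).aestronglyMeasurable
        (C := |c2| * M2) (fun y => by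
          rw [abs_mul]
          exact mul_le_mul_of_nonneg_left (hM2 s ⟨has, hst.le.trans htb⟩ y) (abs_nonneg _)) x
    have g1 := (Pool.Agent.H73.RF.LinD.gf h1 has htb).mulV hV
    have g2 := (Pool.Agent.H73.RF.LinD.gf h2 has htb).mulV hV
    have e1 : P (t - s) (fun y => c1 * z1 s y + c2 * z2 s y) x =
        c1 * P (t - s) (z1 s) x + c2 * P (t - s) (z2 s) x := by
      rw [Pool.Agent.H29.TF.P_add x i1 i2, Pool.Agent.H29.TF.P_const_mul,
        Pool.Agent.H29.TF.P_const_mul]
    have e2 : ∫ r in s..t, P (t - r) (fun y => V r y * (c1 * z1 r y + c2 * z2 r y)) x =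
        c1 * (∫ r in s..t, P (t - r) (fun y => V r y * z1 r y) x) +
          c2 * ∫ r in s..t, P (t - r) (fun y => V r y * z2 r y) x := by
      rw [← intervalIntegral.integral_const_mul, ← intervalIntegral.integral_const_mul,
        ← intervalIntegral.integral_add ((g1.ii hst x).const_mul c1) ((g2.ii hst x).const_mul c2)]
      refine intervalIntegral.integral_congr_ae ?_
      filter_upwards [Pool.Agent.H76.RF.ae_Ioo hst.le (p := fun r =>
        P (t - r) (fun y => V r y * (c1 * z1 r y + c2 * z2 r y)) x =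
          c1 * P (t - r) (fun y => V r y * z1 r y) x +
            c2 * P (t - r) (fun y => V r y * z2 r y) x) (fun r hr => by
          have k1 : Integrable (fun y => hk (t - r) (x - y) * (c1 * (V r y * z1 r y))) := by
            have := (g1.integrable hr x).const_mul c1
            refine this.congr (Eventually.of_forall fun y => ?_)
            show c1 * (hk (t - r) (x - y) * (V r y * z1 r y)) = _
            ring
          have k2 : Integrable (fun y => hk (t - r) (x - y) * (c2 * (V r y * z2 r y))) := by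
            have := (g2.integrable hr x).const_mul c2
            refine this.congr (Eventually.of_forall fun y => ?_)
            show c2 * (hk (t - r) (x - y) * (V r y * z2 r y)) = _
            ring
          rw [← Pool.Agent.H29.TF.P_const_mul, ← Pool.Agent.H29.TF.P_const_mul,
            ← Pool.Agent.H29.TF.P_add x k1 k2]
          congr 1
          funext y
          ring)] with r hr
      exact hr
    show c1 * z1 t x + c2 * z2 t x = _
    rw [e1, e2, h1.duh s t has hst htb x, h2.duh s t has hst htb x]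
    ring

/-- translation -/
theorem lin_shift {V z : ℝ → E N → ℝ} {a b : ℝ} (h : LinD V a b z) (τ : ℝ) (ξ : E N) :
    LinD (fun t x => V (τ + t) (ξ + x)) (a - τ) (b - τ) (fun t x => z (τ + t) (ξ + x)) where
  bdd := by
    obtain ⟨M, hM⟩ := h.bdd
    exact ⟨M, fun t ht x => hM (τ + t) ⟨by linarith [ht.1], by linarith [ht.2]⟩ (ξ + x)⟩
  meas := by
    have h1 : τ + (a - τ) = a := by ring
    rw [h1]
    exact h.meas.comp (measurable_const_add ξ)
  cont := by
    refine h.cont.comp (f := fun p : ℝ × E N => (τ + p.1, ξ + p.2)) (by fun_prop) ?_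
    rintro ⟨r, x⟩ ⟨hr, -⟩
    have h1 : a - τ < r := hr.1
    have h2 : r ≤ b - τ := hr.2
    exact ⟨⟨by show a < τ + r; linarith, by show τ + r ≤ b; linarith⟩, mem_univ _⟩
  duh := by
    intro s t hs hst ht x
    have h1 := h.duh (τ + s) (τ + t) (by linarith) (by linarith) (by linarith) (ξ + x)
    rw [Pool.Agent.H76.RF.P_add_right, add_sub_add_left_eq_sub] at h1
    rw [h1]
    congr 1
    rw [← intervalIntegral.integral_comp_add_left
      (fun r => P (τ + t - r) (fun y => V r y * z r y) (ξ + x)) τ]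
    congr 1
    ext r
    rw [Pool.Agent.H76.RF.P_add_right, add_sub_add_left_eq_sub]

theorem pt_shift {K : ℝ} {V : ℝ → E N → ℝ} (h : Pt K V) (τ : ℝ) (ξ : E N) :
    Pt K (fun t x => V (τ + t) (ξ + x)) where
  K0 := h.K0
  bdd _ _ := h.bdd _ _
  meas := h.meas.comp (f := fun p : ℝ × E N => (τ + p.1, ξ + p.2))
    ((measurable_fst.const_add τ).prodMk (measurable_snd.const_add ξ))

theorem hk_neg (t : ℝ) (y : E N) : hk t (0 - y) = hk t y := by
  rw [zero_sub]; unfold hk; rw [norm_neg]

/-- one step: the near part is controlled by the value at the end -/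
theorem key (hREP : T_KREP) (hKER : T_KER) {K : ℝ} {V z : ℝ → E N → ℝ} (hV : Pt K V) {a : ℝ}
    (hz : LinD V a 0 z) {S : ℝ} (hS : 0 < S) (haS : a ≤ -S) {A : Set (E N)}
    (hA : MeasurableSet A) (hpos : ∀ y ∈ A, 0 ≤ z (-S) y) {δ : ℝ}
    (hfar : |∫ y, gk V 0 0 (0 - S) y * Aᶜ.indicator (z (-S)) y| ≤ δ) :
    ∫ y, hk S y * A.indicator (z (-S)) y ≤ Real.exp (K * S) * (z 0 0 + δ) := by
  have hm : Measurable (z (-S)) := meas_slice hz haS (by linarith)
  obtain ⟨M, hM⟩ := hz.bdd
  have hMS : ∀ y, |z (-S) y| ≤ M := fun y => hM (-S) ⟨haS, by linarith⟩ y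
  have hst : -S < 0 := by linarith
  have h0 : (0 : ℝ) - S = -S := by ring
  rw [h0] at hfar
  have hb : ∀ (B : Set (E N)) (y : E N), |B.indicator (z (-S)) y| ≤ M := by
    intro B y
    by_cases hy : y ∈ B
    · rw [indicator_of_mem hy]; exact hMS y
    · rw [indicator_of_notMem hy, abs_zero]; exact (abs_nonneg _).trans (hMS y)
  have i1 := Pool.Agent.H4.RF.KEX.int_gk hKER hV hst (hm.indicator hA) (hb A) 0
  have i2 := Pool.Agent.H4.RF.KEX.int_gk hKER hV hst (hm.indicator hA.compl) (hb Aᶜ) 0
  have h1 := hREP N K a 0 V z hV hz (-S) 0 haS hst le_rfl 0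
  have h2 : ∫ y, gk V 0 0 (-S) y * z (-S) y = (∫ y, gk V 0 0 (-S) y * A.indicator (z (-S)) y) +
      ∫ y, gk V 0 0 (-S) y * Aᶜ.indicator (z (-S)) y := by
    rw [← integral_add i1 i2]
    congr 1
    funext y
    rw [← mul_add]
    congr 1
    exact (congrFun (indicator_self_add_compl A (z (-S))) y).symm
  have h3 : Real.exp (-(K * S)) * ∫ y, hk S y * A.indicator (z (-S)) y ≤
      ∫ y, gk V 0 0 (-S) y * A.indicator (z (-S)) y := by
    rw [← integral_const_mul]
    refine integral_mono_of_nonneg (Eventually.of_forall fun y => ?_) i1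
      (Eventually.of_forall fun y => ?_)
    · by_cases hy : y ∈ A
      · simp only [indicator_of_mem hy, Pi.zero_apply]
        exact mul_nonneg (Real.exp_pos _).le (mul_nonneg (hk_nonneg hS.le _) (hpos y hy))
      · simp [indicator_of_notMem hy]
    · by_cases hy : y ∈ A
      · simp only [indicator_of_mem hy]
        rw [← mul_assoc]
        refine mul_le_mul_of_nonneg_right ?_ (hpos y hy)
        have := ((hKER N K V hV).2.1 (-S) 0 hst 0 y).1
        rw [show (0 : ℝ) - -S = S by ring, hk_neg] at this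
        exact this
      · simp [indicator_of_notMem hy]
  have h4 : Real.exp (K * S) * Real.exp (-(K * S)) = 1 := by
    rw [← Real.exp_add]; simp
  have h5 : ∫ y, gk V 0 0 (-S) y * A.indicator (z (-S)) y ≤ z 0 0 + δ := by
    have := abs_le.1 hfar
    linarith [this.1]
  calc ∫ y, hk S y * A.indicator (z (-S)) y =
      Real.exp (K * S) * (Real.exp (-(K * S)) * ∫ y, hk S y * A.indicator (z (-S)) y) := by
        rw [← mul_assoc, h4, one_mul]
    _ ≤ Real.exp (K * S) * (z 0 0 + δ) :=
        mul_le_mul_of_nonneg_left (h3.trans h5) (Real.exp_pos _).le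

end Pool.Agent.H90.RF.LIBA
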