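import Pool.Agent.H90.RF.LibaA

/-!
# MP_609556_an, module LIBA, part B: sequences of linear solutions, nonnegative in large boxes
-/

set_option autoImplicit false

open MeasureTheory Set Filter Topology Metric
open Pool.Agent.H29.TF (hk P hk_pos hk_nonneg integrable_hk integrable_hk_sub)
open Pool.Agent.H91.RD Pool.Agent.H91.RF

namespace Pool.Agent.H90.RF.LIBA

variable {N : ℕ}

/-- the tail of the kernel beats the lower bound `exp (-t/2)` -/
theorem tail (hNSUP : T_NSUP) (hKER : T_KER) {K : ℝ} {V : ℕ → ℝ → E N → ℝ}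
    (hV : ∀ n, Pt K (V n)) {tn : ℕ → ℝ} (tt : Tendsto tn atTop atTop) {g : ℕ → E N → ℝ}
    (hg : ∀ n, Measurable (g n)) {B : ℝ}
    (hB : ∀ᶠ n in atTop, ∀ y, |g n y| ≤ B * Real.exp (tn n / 2)) {ρ : ℝ} (hρ : 0 < ρ)
    (hfar : ∀ n y, ‖y‖ ≤ ρ * tn n → g n y = 0) {S : ℝ} (hS : 0 < S) {δ : ℝ} (hδ : 0 < δ) :
    ∀ᶠ n in atTop, Integrable (fun y => gk (V n) 0 0 (0 - S) y * |g n y|) ∧
      ∫ y, gk (V n) 0 0 (0 - S) y * |g n y| ≤ δ := by
  have hK : 0 < K := (hV 0).K0
  -- choice of the small constant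
  obtain ⟨d, hd, hd1⟩ : ∃ d > 0, 16 * d * (K * d + 1 + 1) ≤ ρ ^ 2 := by
    refine ⟨min 1 (ρ ^ 2 / (16 * (K + 2))), by positivity, ?_⟩
    set d := min 1 (ρ ^ 2 / (16 * (K + 2)))
    have h1 : d ≤ 1 := min_le_left _ _
    have h2 : d ≤ ρ ^ 2 / (16 * (K + 2)) := min_le_right _ _
    have h0 : 0 < d := by positivity
    have h3 : d * (16 * (K + 2)) ≤ ρ ^ 2 := by
      rwa [le_div_iff₀ (by positivity)] at h2
    nlinarith [mul_nonneg h0.le hK.le]
  obtain ⟨T, hT, h⟩ := hNSUP N K (|B| + 1) ρ d 1 hK (by positivity) hρ hd one_pos hd1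
  have hexp : ∀ᶠ n in atTop, Real.exp (-(tn n / 2)) ≤ δ := by
    have h1 : Tendsto (fun n => Real.exp (-(tn n / 2))) atTop (𝓝 0) :=
      Real.tendsto_exp_atBot.comp (tendsto_neg_atTop_atBot.comp (tt.atTop_div_const two_pos))
    exact (h1.eventually (gt_mem_nhds hδ)).mono fun n hn => hn.le
  filter_upwards [hB, hexp, tt.eventually_ge_atTop T, tt.eventually_ge_atTop (S / d)]
    with n h1 h2 h3 h4
  have h5 : S ≤ d * tn n := by
    rw [div_le_iff₀ hd] at h4; linarith
  have hst : (0 : ℝ) - S < 0 := by linarith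
  have hpr : ∀ y, Real.exp (tn n / 2) * (Real.exp (-(tn n / 2)) * |g n y|) = |g n y| := by
    intro y
    rw [← mul_assoc, ← Real.exp_add]; simp
  have hb' : ∀ y, |Real.exp (-(tn n / 2)) * (|g n y|)| ≤ |B| + 1 := by
    intro y
    rw [abs_of_nonneg (mul_nonneg (Real.exp_pos _).le (abs_nonneg _))]
    calc Real.exp (-(tn n / 2)) * |g n y| ≤
        Real.exp (-(tn n / 2)) * (B * Real.exp (tn n / 2)) :=
          mul_le_mul_of_nonneg_left (h1 y) (Real.exp_pos _).le
      _ = B := by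
          rw [mul_comm B, ← mul_assoc, ← Real.exp_add]; simp
      _ ≤ |B| + 1 := by linarith [le_abs_self B]
  have hm : Measurable (fun y => Real.exp (-(tn n / 2)) * |g n y|) :=
    (measurable_norm.comp (hg n)).const_mul _
  have h6 := h (tn n) h3 (V n) (fun y => Real.exp (-(tn n / 2)) * |g n y|) 0 S 0 (hV n) hm hb'
    hS h5 (fun y hy => by
      have : g n y = 0 := hfar n y (by rwa [dist_zero_right] at hy)
      simp [this])
  have hI := Pool.Agent.H4.RF.KEX.int_gk hKER (hV n) hst hm hb' 0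
  have e1 : (fun y => gk (V n) 0 0 (0 - S) y * |g n y|) = fun y => Real.exp (tn n / 2) *
      (gk (V n) 0 0 (0 - S) y * (Real.exp (-(tn n / 2)) * |g n y|)) := by
    funext y
    rw [mul_left_comm, hpr]
  rw [e1]
  refine ⟨hI.const_mul _, ?_⟩
  rw [integral_const_mul]
  calc Real.exp (tn n / 2) * ∫ y, gk (V n) 0 0 (0 - S) y * (Real.exp (-(tn n / 2)) * |g n y|)
      ≤ Real.exp (tn n / 2) * Real.exp (-(1 * tn n)) :=
        mul_le_mul_of_nonneg_left ((le_abs_self _).trans h6) (Real.exp_pos _).le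
    _ = Real.exp (-(tn n / 2)) := by rw [← Real.exp_add]; congr 1; ring
    _ ≤ δ := h2

/-- bounds at the time `-S` by the value at the end -/
theorem near (hREP : T_KREP) (hKER : T_KER) (hNSUP : T_NSUP) {K : ℝ} {V : ℕ → ℝ → E N → ℝ}
    (hV : ∀ n, Pt K (V n)) {tn : ℕ → ℝ} (tt : Tendsto tn atTop atTop) {z : ℕ → ℝ → E N → ℝ}
    (hz : ∀ n, LinD (V n) (1 - tn n) 0 (z n)) {B : ℝ}
    (hB : ∀ᶠ n in atTop, ∀ t ∈ Icc (1 - tn n) 0, ∀ y, |z n t y| ≤ B * Real.exp (tn n / 2))
    {ρ : ℝ} (hρ : 0 < ρ)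
    (hpos : ∀ᶠ n in atTop, ∀ t ∈ Icc (-(ρ * tn n)) 0, ∀ y, ‖y‖ ≤ ρ * tn n → 0 ≤ z n t y)
    {S : ℝ} (hS : 0 < S) {δ : ℝ} (hδ : 0 < δ) :
    ∀ᶠ n in atTop,
      (∫ y, hk S y * (closedBall (0 : E N) (ρ * tn n)).indicator (z n (-S)) y ≤
        Real.exp (K * S) * (z n 0 0 + δ)) ∧
      ∫ y, hk S y * |z n (-S) y| ≤ Real.exp (K * S) * (z n 0 0 + 2 * δ) := by
  set A : ℕ → Set (E N) := fun n => closedBall (0 : E N) (ρ * tn n) with hA
  have hAm : ∀ n, MeasurableSet (A n) := fun n => measurableSet_closedBall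
  -- the truncated function, defined for all n
  set g : ℕ → E N → ℝ := fun n =>
    if 1 - tn n ≤ -S then (A n)ᶜ.indicator (z n (-S)) else fun _ => 0 with hg
  have hgm : ∀ n, Measurable (g n) := by
    intro n
    simp only [hg]
    split_ifs with h
    · exact (meas_slice (hz n) h (by linarith)).indicator (hAm n).compl
    · exact measurable_const
  have hgf : ∀ n y, ‖y‖ ≤ ρ * tn n → g n y = 0 := by
    intro n y hy
    simp only [hg]
    split_ifs with h
    · rw [indicator_of_notMem]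
      intro hc
      exact hc (by rw [hA]; simpa using hy)
    · rfl
  have hlate : ∀ᶠ n in atTop, 1 - tn n ≤ -S := by
    filter_upwards [tt.eventually_ge_atTop (1 + S)] with n hn
    linarith
  have hgB : ∀ᶠ n in atTop, ∀ y, |g n y| ≤ B * Real.exp (tn n / 2) := by
    filter_upwards [hB, hlate] with n h1 h2 y
    have h3 := h1 (-S) ⟨h2, by linarith⟩ y
    simp only [hg, if_pos h2]
    by_cases hy : y ∈ (A n)ᶜ
    · rw [indicator_of_mem hy]; exact h3
    · rw [indicator_of_notMem hy, abs_zero]; exact (abs_nonneg _).trans h3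
  have ht := tail hNSUP hKER hV tt hgm hgB hρ hgf hS hδ
  filter_upwards [ht, hpos, hlate, tt.eventually_ge_atTop (S / ρ), hB] with n h1 h2 h3 h4 h5
  have h6 : S ≤ ρ * tn n := by
    rw [div_le_iff₀ hρ] at h4; linarith
  have hge : g n = (A n)ᶜ.indicator (z n (-S)) := by simp only [hg, if_pos h3]
  rw [hge] at h1
  obtain ⟨hI, hle⟩ := h1
  have hst : (0 : ℝ) - S < 0 := by linarith
  have hgk0 : ∀ y, 0 ≤ gk (V n) 0 0 (0 - S) y := fun y =>
    le_trans (mul_nonneg (Real.exp_pos _).le (hk_nonneg (by linarith) _))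
      ((hKER N K (V n) (hV n)).2.1 (0 - S) 0 hst 0 y).1
  have hfar : |∫ y, gk (V n) 0 0 (0 - S) y * (A n)ᶜ.indicator (z n (-S)) y| ≤ δ := by
    refine le_trans ?_ hle
    rw [← Real.norm_eq_abs]
    refine (norm_integral_le_integral_norm _).trans (le_of_eq ?_)
    congr 1
    funext y
    rw [Real.norm_eq_abs, abs_mul, abs_of_nonneg (hgk0 y)]
  have hposA : ∀ y ∈ A n, 0 ≤ z n (-S) y := fun y hy =>
    h2 (-S) ⟨by linarith, by linarith⟩ y (by simpa [hA] using hy)
  have hk1 := key hREP hKER (hV n) (hz n) hS h3 (hAm n) hposA hfar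
  refine ⟨hk1, ?_⟩
  -- splitting of the absolute value
  have hm : Measurable (z n (-S)) := meas_slice (hz n) h3 (by linarith)
  have hbd : ∀ y, |z n (-S) y| ≤ B * Real.exp (tn n / 2) := h5 (-S) ⟨h3, by linarith⟩
  have iA : Integrable (fun y => hk S y * (A n).indicator (z n (-S)) y) := by
    refine ((integrable_hk hS).const_mul (B * Real.exp (tn n / 2))).mono'
      ((integrable_hk hS).aestronglyMeasurable.mul
        (hm.indicator (hAm n)).aestronglyMeasurable) (Eventually.of_forall fun y => ?_)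
    rw [norm_mul, Real.norm_of_nonneg (hk_nonneg hS.le y), mul_comm]
    refine mul_le_mul_of_nonneg_right ?_ (hk_nonneg hS.le y)
    by_cases hy : y ∈ A n
    · rw [indicator_of_mem hy]; exact hbd y
    · rw [indicator_of_notMem hy, norm_zero]; exact (abs_nonneg _).trans (hbd y)
  have iF : Integrable (fun y => hk S y * |(A n)ᶜ.indicator (z n (-S)) y|) := by
    refine ((integrable_hk hS).const_mul (B * Real.exp (tn n / 2))).mono'
      ((integrable_hk hS).aestronglyMeasurable.mul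
        (hm.indicator (hAm n).compl).abs.aestronglyMeasurable) (Eventually.of_forall fun y => ?_)
    rw [norm_mul, Real.norm_of_nonneg (hk_nonneg hS.le y), mul_comm]
    refine mul_le_mul_of_nonneg_right ?_ (hk_nonneg hS.le y)
    rw [Real.norm_eq_abs, abs_abs]
    by_cases hy : y ∈ (A n)ᶜ
    · rw [indicator_of_mem hy]; exact hbd y
    · rw [indicator_of_notMem hy, abs_zero]; exact (abs_nonneg _).trans (hbd y)
  have hsplit : ∀ y, hk S y * |z n (-S) y| = hk S y * (A n).indicator (z n (-S)) y +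
      hk S y * |(A n)ᶜ.indicator (z n (-S)) y| := by
    intro y
    by_cases hy : y ∈ A n
    · rw [indicator_of_mem hy, indicator_of_notMem (by simpa using hy), abs_zero, mul_zero,
        add_zero, abs_of_nonneg (hposA y hy)]
    · rw [indicator_of_notMem hy, indicator_of_mem (by simpa using hy), mul_zero, zero_add]
  have hF : ∫ y, hk S y * |(A n)ᶜ.indicator (z n (-S)) y| ≤ Real.exp (K * S) * δ := by
    have h7 : ∀ y, hk S y * |(A n)ᶜ.indicator (z n (-S)) y| ≤
        Real.exp (K * S) * (gk (V n) 0 0 (0 - S) y * |(A n)ᶜ.indicator (z n (-S)) y|) := by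
      intro y
      rw [← mul_assoc]
      refine mul_le_mul_of_nonneg_right ?_ (abs_nonneg _)
      have h8 := ((hKER N K (V n) (hV n)).2.1 (0 - S) 0 hst 0 y).1
      rw [show (0 : ℝ) - (0 - S) = S by ring, hk_neg] at h8
      calc hk S y = Real.exp (K * S) * (Real.exp (-(K * S)) * hk S y) := by
            rw [← mul_assoc, ← Real.exp_add]; simp
        _ ≤ Real.exp (K * S) * gk (V n) 0 0 (0 - S) y :=
            mul_le_mul_of_nonneg_left h8 (Real.exp_pos _).le
    calc ∫ y, hk S y * |(A n)ᶜ.indicator (z n (-S)) y| ≤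
        ∫ y, Real.exp (K * S) * (gk (V n) 0 0 (0 - S) y * |(A n)ᶜ.indicator (z n (-S)) y|) :=
          integral_mono iF (hI.const_mul _) h7
      _ = Real.exp (K * S) * ∫ y, gk (V n) 0 0 (0 - S) y * |(A n)ᶜ.indicator (z n (-S)) y| :=
          integral_const_mul _ _
      _ ≤ Real.exp (K * S) * δ := mul_le_mul_of_nonneg_left hle (Real.exp_pos _).le
  calc ∫ y, hk S y * |z n (-S) y| = (∫ y, hk S y * (A n).indicator (z n (-S)) y) +
        ∫ y, hk S y * |(A n)ᶜ.indicator (z n (-S)) y| := by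
        rw [← integral_add iA iF]
        exact integral_congr_ae (Eventually.of_forall hsplit)
    _ ≤ Real.exp (K * S) * (z n 0 0 + δ) + Real.exp (K * S) * δ := add_le_add hk1 hF
    _ = _ := by ring

end Pool.Agent.H90.RF.LIBA
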