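import Pool.Agent.H90.RF.LibaB

/-!
# MP_609556_an, module LIBA, part C: the normalised derivatives along the sequence
-/

set_option autoImplicit false

open MeasureTheory Set Filter Topology Metric
open Pool.Agent.H29.TF (hk P hk_pos hk_nonneg integrable_hk integrable_hk_sub)
open Pool.Agent.H91.RD Pool.Agent.H91.RF

namespace Pool.Agent.H90.RF.LIBA

variable {N : ℕ}

/-- the normalised slope -/
noncomputable def zf (u : ℝ → E N → ℝ) (t0 : ℝ) (x0 e : E N) (t : ℝ) (x : E N) : ℝ :=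
  -dx u e (t0 + t) (x0 + x) / -dx u e t0 x0

/-- the normalised derivative along `(1, w)` -/
noncomputable def hf (u : ℝ → E N → ℝ) (t0 : ℝ) (x0 e w : E N) (t : ℝ) (x : E N) : ℝ :=
  (dt u (t0 + t) (x0 + x) + dx u w (t0 + t) (x0 + x)) / -dx u e t0 x0

/-- the velocity -/
noncomputable def wv (cc α M : ℝ) (e a : E N) : E N := (cc * (1 - α ^ 2) - M) • e - (2 * cc) • a

/-- a sequence of points, with all facts which are used -/
structure Sq (f : ℝ → ℝ) (K : ℝ) (U : Set (E N)) (u : ℝ → E N → ℝ) (cc α M : ℝ) (tn : ℕ → ℝ)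
    (xn en an : ℕ → E N) (e a : E N) : Prop where
  reac : Reaction f
  lip : Lip f K
  sol : SolM f U u
  t2 : ∀ n, 2 ≤ tn n
  tt : Tendsto tn atTop atTop
  e1 : ∀ n, ‖en n‖ = 1
  et : Tendsto en atTop (𝓝 e)
  a1 : ∀ n, ‖an n‖ = α
  att : Tendsto an atTop (𝓝 a)
  pos : ∀ n, 0 < -dx u (en n) (tn n) (xn n)
  low : ∀ᶠ n in atTop, Real.exp (-(tn n / 2)) ≤ -dx u (en n) (tn n) (xn n)
  box : ∀ ε > 0, ∃ ρ > 0, ∀ᶠ n in atTop, ∀ t ∈ Icc (-(ρ * tn n)) 0, ∀ y, ‖y‖ ≤ ρ * tn n →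
    0 < -dx u (en n) (tn n + t) (xn n + y) ∧
    Fa u cc (en n) (an n) (tn n + t) (xn n + y) ≤
      (M + ε) * -dx u (en n) (tn n + t) (xn n + y)
  mx : ∀ ε > 0, ∀ᶠ n in atTop, (M - ε) * -dx u (en n) (tn n) (xn n) ≤
    Fa u cc (en n) (an n) (tn n) (xn n)

theorem Sq.comp {f : ℝ → ℝ} {K : ℝ} {U : Set (E N)} {u : ℝ → E N → ℝ} {cc α M : ℝ} {tn : ℕ → ℝ}
    {xn en an : ℕ → E N} {e a : E N} (h : Sq f K U u cc α M tn xn en an e a) {σ : ℕ → ℕ}
    (hσ : StrictMono σ) :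
    Sq f K U u cc α M (fun n => tn (σ n)) (fun n => xn (σ n)) (fun n => en (σ n))
      (fun n => an (σ n)) e a where
  reac := h.reac
  lip := h.lip
  sol := h.sol
  t2 n := h.t2 _
  tt := h.tt.comp hσ.tendsto_atTop
  e1 n := h.e1 _
  et := h.et.comp hσ.tendsto_atTop
  a1 n := h.a1 _
  att := h.att.comp hσ.tendsto_atTop
  pos n := h.pos _
  low := hσ.tendsto_atTop.eventually h.low
  box ε hε := by
    obtain ⟨ρ, hρ, h1⟩ := h.box ε hε
    exact ⟨ρ, hρ, hσ.tendsto_atTop.eventually h1⟩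
  mx ε hε := hσ.tendsto_atTop.eventually (h.mx ε hε)

theorem dx_lin (u : ℝ → E N → ℝ) (c d : ℝ) (e a : E N) (t : ℝ) (x : E N) :
    dx u (c • e - d • a) t x = c * dx u e t x - d * dx u a t x := by
  unfold dx; rw [map_sub, map_smul, map_smul]; simp

theorem hf_eq (u : ℝ → E N → ℝ) (t0 : ℝ) (x0 e a : E N) (cc M : ℝ) (t : ℝ) (x : E N) :
    hf u t0 x0 e (wv cc ‖a‖ M e a) t x =
      (M * -dx u e (t0 + t) (x0 + x) - Fa u cc e a (t0 + t) (x0 + x)) / -dx u e t0 x0 := by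
  unfold hf wv Fa
  rw [dx_lin]
  congr 1
  ring

theorem zf_00 {u : ℝ → E N → ℝ} {t0 : ℝ} {x0 e : E N} (h : 0 < -dx u e t0 x0) :
    zf u t0 x0 e 0 0 = 1 := by
  unfold zf
  rw [add_zero, add_zero]
  exact div_self h.ne'

section

variable {f : ℝ → ℝ} {K : ℝ} {U : Set (E N)} {u : ℝ → E N → ℝ}

theorem zf_lin (hLINU : T_LINU) (hr : Reaction f) (hl : Lip f K) (hs : SolM f U u) {t0 : ℝ}
    (h2 : 2 ≤ t0) (x0 e : E N) :
    LinD (fun t x => pot f u (t0 + t) (x0 + x)) (1 - t0) 0 (zf u t0 x0 e) := by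
  obtain ⟨hPt, -, hlin, -⟩ := hLINU N f K U u hr hl hs
  have h3 := lin_shift ((hlin 1 t0 one_pos (by linarith)).1 e) t0 x0
  rw [sub_self] at h3
  have h4 := lin_comb (pt_shift hPt t0 x0) h3 h3 (dx u e t0 x0)⁻¹ 0
  have h5 : zf u t0 x0 e = fun t x => (dx u e t0 x0)⁻¹ * dx u e (t0 + t) (x0 + x) +
      0 * dx u e (t0 + t) (x0 + x) := by
    funext t x
    unfold zf
    rw [neg_div_neg_eq, div_eq_inv_mul]
    ring
  rw [h5]
  exact h4

theorem hf_lin (hLINU : T_LINU) (hr : Reaction f) (hl : Lip f K) (hs : SolM f U u) {t0 : ℝ}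
    (h2 : 2 ≤ t0) (x0 e w : E N) :
    LinD (fun t x => pot f u (t0 + t) (x0 + x)) (1 - t0) 0 (hf u t0 x0 e w) := by
  obtain ⟨hPt, -, hlin, -⟩ := hLINU N f K U u hr hl hs
  have h3 := lin_shift ((hlin 1 t0 one_pos (by linarith)).1 w) t0 x0
  have h3' := lin_shift ((hlin 1 t0 one_pos (by linarith)).2) t0 x0
  rw [sub_self] at h3 h3'
  have h4 := lin_comb (pt_shift hPt t0 x0) h3' h3 (-dx u e t0 x0)⁻¹ (-dx u e t0 x0)⁻¹
  have h5 : hf u t0 x0 e w = fun t x => (-dx u e t0 x0)⁻¹ * dt u (t0 + t) (x0 + x) +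
      (-dx u e t0 x0)⁻¹ * dx u w (t0 + t) (x0 + x) := by
    funext t x
    unfold hf
    rw [div_eq_inv_mul]
    ring
  rw [h5]
  exact h4

theorem norm_wv {cc α M : ℝ} (hcc : 0 < cc) {e a : E N} (he : ‖e‖ = 1) (ha : ‖a‖ = α) :
    ‖wv cc α M e a‖ ≤ |cc * (1 - α ^ 2) - M| + 2 * cc * α := by
  unfold wv
  refine (norm_sub_le _ _).trans ?_
  rw [norm_smul, norm_smul, he, ha, mul_one, Real.norm_eq_abs, Real.norm_eq_abs,
    abs_of_pos (by positivity : (0 : ℝ) < 2 * cc)]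

variable {cc α M : ℝ} {tn : ℕ → ℝ} {xn en an : ℕ → E N} {e a : E N}

/-- the velocities of the sequence -/
theorem wv_tendsto (h : Sq f K U u cc α M tn xn en an e a) :
    Tendsto (fun n => wv cc α M (en n) (an n)) atTop (𝓝 (wv cc α M e a)) := by
  unfold wv
  exact (h.et.const_smul _).sub (h.att.const_smul _)

theorem dx_le_gr (h' : E N) (t : ℝ) (x : E N) : |dx u h' t x| ≤ gr u t x * ‖h'‖ := by
  unfold dx gr
  rw [← Real.norm_eq_abs]
  exact ContinuousLinearMap.le_opNorm _ _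

/-- growth bounds of the normalised functions -/
theorem bdd (hLINU : T_LINU) (hcc : 0 < cc) (hα : 0 ≤ α)
    (h : Sq f K U u cc α M tn xn en an e a) :
    ∃ B, 0 ≤ B ∧ ∀ᶠ n in atTop, ∀ t ∈ Icc (1 - tn n) 0, ∀ y,
      |zf u (tn n) (xn n) (en n) t y| ≤ B * Real.exp (tn n / 2) ∧
      |hf u (tn n) (xn n) (en n) (wv cc α M (en n) (an n)) t y| ≤ B * Real.exp (tn n / 2) := by
  obtain ⟨-, -, -, C, hC⟩ := hLINU N f K U u h.reac h.lip h.sol
  have hC0 : 0 ≤ C := (norm_nonneg _).trans (hC 1 le_rfl 0).1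
  set W := |cc * (1 - α ^ 2) - M| + 2 * cc * α with hW
  have hW0 : 0 ≤ W := by positivity
  refine ⟨C * (1 + W), by positivity, ?_⟩
  filter_upwards [h.low] with n hn t ht y
  have hp := h.pos n
  have h1 : 1 ≤ tn n + t := by linarith [ht.1]
  obtain ⟨h2, h3, -⟩ := hC (tn n + t) h1 (xn n + y)
  have h4 : |dx u (en n) (tn n + t) (xn n + y)| ≤ C := by
    refine (dx_le_gr _ _ _).trans ?_
    rw [h.e1 n, mul_one]; exact h2
  have h5 : |dx u (wv cc α M (en n) (an n)) (tn n + t) (xn n + y)| ≤ C * W := by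
    refine (dx_le_gr _ _ _).trans ?_
    exact mul_le_mul h2 (norm_wv hcc (h.e1 n) (h.a1 n)) (norm_nonneg _) hC0
  have h6 : 1 ≤ Real.exp (tn n / 2) * -dx u (en n) (tn n) (xn n) := by
    calc (1 : ℝ) = Real.exp (tn n / 2) * Real.exp (-(tn n / 2)) := by
          rw [← Real.exp_add]; simp
      _ ≤ _ := mul_le_mul_of_nonneg_left hn (Real.exp_pos _).le
  have h7 : ∀ A : ℝ, |A| ≤ C * (1 + W) →
      |A / -dx u (en n) (tn n) (xn n)| ≤ C * (1 + W) * Real.exp (tn n / 2) := by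
    intro A hA
    rw [abs_div, abs_of_pos hp, div_le_iff₀ hp, mul_assoc]
    calc |A| ≤ C * (1 + W) * 1 := by rw [mul_one]; exact hA
      _ ≤ _ := mul_le_mul_of_nonneg_left h6 (by positivity)
  refine ⟨?_, ?_⟩
  · refine h7 _ ?_
    rw [abs_neg]
    nlinarith
  · refine h7 _ ((abs_add_le _ _).trans ?_)
    linarith

theorem pots (hLINU : T_LINU) (h : Sq f K U u cc α M tn xn en an e a) (n : ℕ) :
    Pt K (fun t x => pot f u (tn n + t) (xn n + x)) :=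
  pt_shift (hLINU N f K U u h.reac h.lip h.sol).1 _ _

/-- the combination `H + ε z` is nonnegative in large boxes and small at the end -/
theorem comb (h : Sq f K U u cc α M tn xn en an e a) {ε : ℝ} (hε : 0 < ε) :
    ∃ ρ > 0, ∀ᶠ n in atTop, (∀ t ∈ Icc (-(ρ * tn n)) 0, ∀ y, ‖y‖ ≤ ρ * tn n →
      0 ≤ zf u (tn n) (xn n) (en n) t y ∧
      0 ≤ hf u (tn n) (xn n) (en n) (wv cc α M (en n) (an n)) t y +
        ε * zf u (tn n) (xn n) (en n) t y) ∧
      hf u (tn n) (xn n) (en n) (wv cc α M (en n) (an n)) 0 0 +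
        ε * zf u (tn n) (xn n) (en n) 0 0 ≤ 2 * ε := by
  obtain ⟨ρ, hρ, h1⟩ := h.box ε hε
  refine ⟨ρ, hρ, ?_⟩
  filter_upwards [h1, h.mx ε hε] with n h2 h3
  have hp := h.pos n
  have ha : α = ‖an n‖ := (h.a1 n).symm
  refine ⟨fun t ht y hy => ?_, ?_⟩
  · obtain ⟨h4, h5⟩ := h2 t ht y hy
    refine ⟨div_nonneg h4.le hp.le, ?_⟩
    rw [ha, hf_eq]
    unfold zf
    rw [← mul_div_assoc, ← add_div]
    refine div_nonneg ?_ hp.le
    linarith
  · rw [zf_00 hp, ha, hf_eq, add_zero, add_zero, mul_one]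
    have h6 : (M * -dx u (en n) (tn n) (xn n) - Fa u cc (en n) (an n) (tn n) (xn n)) /
        -dx u (en n) (tn n) (xn n) ≤ ε := by
      rw [div_le_iff₀ hp]
      linarith
    linarith

end

end Pool.Agent.H90.RF.LIBA
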