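import Pool.Agent.H90.RF.LibaC

/-!
# MP_609556_an, module LIBA, part D: extraction of limits
-/

set_option autoImplicit false

open MeasureTheory Set Filter Topology Metric
open Pool.Agent.H29.TF (hk P hk_pos hk_nonneg integrable_hk integrable_hk_sub)
open Pool.Agent.H91.RD Pool.Agent.H91.RF

namespace Pool.Agent.H90.RF.LIBA

variable {N : ℕ} {f : ℝ → ℝ} {K : ℝ} {U : Set (E N)} {u : ℝ → E N → ℝ} {cc α M : ℝ}
  {tn : ℕ → ℝ} {xn en an : ℕ → E N} {e a : E N}

theorem lin_ev {V : ℝ → E N → ℝ} {z : ℝ → E N → ℝ} {a b : ℝ} (h : LinD V a b z) {S : ℝ}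
    (hS : 0 < S) {s : ℝ} (h1 : a ≤ s) (h2 : s ≤ b) :
    Integrable (fun y => hk S y * |z s y|) := by
  obtain ⟨M, hM⟩ := h.bdd
  have hm := meas_slice h h1 h2
  refine ((integrable_hk hS).const_mul M).mono'
    ((integrable_hk hS).aestronglyMeasurable.mul hm.abs.aestronglyMeasurable)
    (Eventually.of_forall fun y => ?_)
  rw [norm_mul, Real.norm_of_nonneg (hk_nonneg hS.le y), mul_comm]
  refine mul_le_mul_of_nonneg_right ?_ (hk_nonneg hS.le y)
  rw [Real.norm_eq_abs, abs_abs]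
  exact hM s ⟨h1, h2⟩ y

theorem lin_ind {V : ℝ → E N → ℝ} {z : ℝ → E N → ℝ} {a b : ℝ} (h : LinD V a b z) {S : ℝ}
    (hS : 0 < S) {s : ℝ} (h1 : a ≤ s) (h2 : s ≤ b) {A : Set (E N)} (hA : MeasurableSet A) :
    Integrable (fun y => hk S y * A.indicator (z s) y) := by
  obtain ⟨M, hM⟩ := h.bdd
  have hm := meas_slice h h1 h2
  refine ((integrable_hk hS).const_mul M).mono'
    ((integrable_hk hS).aestronglyMeasurable.mul (hm.indicator hA).aestronglyMeasurable)
    (Eventually.of_forall fun y => ?_)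
  rw [norm_mul, Real.norm_of_nonneg (hk_nonneg hS.le y), mul_comm]
  refine mul_le_mul_of_nonneg_right ?_ (hk_nonneg hS.le y)
  by_cases hy : y ∈ A
  · rw [indicator_of_mem hy]; exact hM s ⟨h1, h2⟩ y
  · rw [indicator_of_notMem hy, norm_zero]; exact (abs_nonneg _).trans (hM s ⟨h1, h2⟩ y)

/-- boundedness of the normalised slopes -/
theorem z_mass (hREP : T_KREP) (hKER : T_KER) (hNSUP : T_NSUP) (hLINU : T_LINU) (hcc : 0 < cc)
    (hα : 0 ≤ α) (h : Sq f K U u cc α M tn xn en an e a) {S : ℝ} (hS : 0 < S) :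
    ∀ᶠ n in atTop, ∫ y, hk S y * |zf u (tn n) (xn n) (en n) (-S) y| ≤
      Real.exp (K * S) * 3 := by
  obtain ⟨B, -, hB⟩ := bdd hLINU hcc hα h
  obtain ⟨ρ, hρ, h1⟩ := comb h (one_pos)
  have h2 := near (V := fun n t x => pot f u (tn n + t) (xn n + x)) hREP hKER hNSUP
    (pots hLINU h) h.tt
    (fun n => zf_lin hLINU h.reac h.lip h.sol (h.t2 n) (xn n) (en n))
    (hB.mono fun n hn t ht y => (hn t ht y).1) hρ
    (h1.mono fun n hn t ht y hy => (hn.1 t ht y hy).1) hS one_pos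
  filter_upwards [h2] with n hn
  have := hn.2
  rw [zf_00 (h.pos n)] at this
  calc _ ≤ _ := this
    _ = _ := by ring

/-- the near part of `H + ε z` is small -/
theorem h_near (hREP : T_KREP) (hKER : T_KER) (hNSUP : T_NSUP) (hLINU : T_LINU) (hcc : 0 < cc)
    (hα : 0 ≤ α) (h : Sq f K U u cc α M tn xn en an e a) {S : ℝ} (hS : 0 < S) {ε : ℝ}
    (hε : 0 < ε) :
    ∃ ρ > 0, ∀ᶠ n in atTop,
      (∀ t ∈ Icc (-(ρ * tn n)) 0, ∀ y, ‖y‖ ≤ ρ * tn n →
        0 ≤ zf u (tn n) (xn n) (en n) t y ∧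
        0 ≤ hf u (tn n) (xn n) (en n) (wv cc α M (en n) (an n)) t y +
          ε * zf u (tn n) (xn n) (en n) t y) ∧
      (∫ y, hk S y * (closedBall (0 : E N) (ρ * tn n)).indicator (fun y =>
        hf u (tn n) (xn n) (en n) (wv cc α M (en n) (an n)) (-S) y +
          ε * zf u (tn n) (xn n) (en n) (-S) y) y ≤ Real.exp (K * S) * (3 * ε)) ∧
      ∫ y, hk S y * |hf u (tn n) (xn n) (en n) (wv cc α M (en n) (an n)) (-S) y +
          ε * zf u (tn n) (xn n) (en n) (-S) y| ≤ Real.exp (K * S) * (4 * ε) := by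
  obtain ⟨B, hB0, hB⟩ := bdd hLINU hcc hα h
  obtain ⟨ρ, hρ, h1⟩ := comb h hε
  refine ⟨ρ, hρ, ?_⟩
  have hlin : ∀ n, LinD (fun t x => pot f u (tn n + t) (xn n + x)) (1 - tn n) 0 (fun t y =>
      hf u (tn n) (xn n) (en n) (wv cc α M (en n) (an n)) t y +
        ε * zf u (tn n) (xn n) (en n) t y) := by
    intro n
    have := lin_comb (pots hLINU h n)
      (hf_lin hLINU h.reac h.lip h.sol (h.t2 n) (xn n) (en n) (wv cc α M (en n) (an n)))
      (zf_lin hLINU h.reac h.lip h.sol (h.t2 n) (xn n) (en n)) 1 ε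
    simpa only [one_mul] using this
  have h2 := near (V := fun n t x => pot f u (tn n + t) (xn n + x)) (B := (1 + ε) * B)
    hREP hKER hNSUP (pots hLINU h) h.tt hlin
    (hB.mono fun n hn t ht y => by
      obtain ⟨k1, k2⟩ := hn t ht y
      refine (abs_add_le _ _).trans ?_
      rw [abs_mul, abs_of_pos hε]
      nlinarith [mul_le_mul_of_nonneg_left k1 hε.le]) hρ
    (h1.mono fun n hn t ht y hy => (hn.1 t ht y hy).2) hS hε
  filter_upwards [h2, h1] with n hn hn1
  refine ⟨hn1.1, hn.1.trans ?_, hn.2.trans ?_⟩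
  · refine mul_le_mul_of_nonneg_left ?_ (Real.exp_pos _).le
    linarith [hn1.2]
  · refine mul_le_mul_of_nonneg_left ?_ (Real.exp_pos _).le
    linarith [hn1.2]

theorem h_mass (hREP : T_KREP) (hKER : T_KER) (hNSUP : T_NSUP) (hLINU : T_LINU) (hcc : 0 < cc)
    (hα : 0 ≤ α) (h : Sq f K U u cc α M tn xn en an e a) {S : ℝ} (hS : 0 < S) :
    ∀ᶠ n in atTop,
      ∫ y, hk S y * |hf u (tn n) (xn n) (en n) (wv cc α M (en n) (an n)) (-S) y| ≤
        Real.exp (K * S) * 7 := by
  obtain ⟨ρ, -, h1⟩ := h_near hREP hKER hNSUP hLINU hcc hα h hS one_pos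
  filter_upwards [h1, z_mass hREP hKER hNSUP hLINU hcc hα h hS,
    h.tt.eventually_ge_atTop (1 + S)] with n h2 h3 h4
  have i1 := lin_ev (hf_lin hLINU h.reac h.lip h.sol (h.t2 n) (xn n) (en n)
    (wv cc α M (en n) (an n))) hS (s := -S) (by linarith) (by linarith)
  have i2 := lin_ev (zf_lin hLINU h.reac h.lip h.sol (h.t2 n) (xn n) (en n)) hS (s := -S)
    (by linarith) (by linarith)
  have hlin : LinD (fun t x => pot f u (tn n + t) (xn n + x)) (1 - tn n) 0 (fun t y =>
      hf u (tn n) (xn n) (en n) (wv cc α M (en n) (an n)) t y +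
        1 * zf u (tn n) (xn n) (en n) t y) := by
    have := lin_comb (pots hLINU h n)
      (hf_lin hLINU h.reac h.lip h.sol (h.t2 n) (xn n) (en n) (wv cc α M (en n) (an n)))
      (zf_lin hLINU h.reac h.lip h.sol (h.t2 n) (xn n) (en n)) 1 1
    simpa only [one_mul] using this
  have i3 := lin_ev hlin hS (s := -S) (by linarith) (by linarith)
  have h5 : ∀ y, hk S y * |hf u (tn n) (xn n) (en n) (wv cc α M (en n) (an n)) (-S) y| ≤
      hk S y * |hf u (tn n) (xn n) (en n) (wv cc α M (en n) (an n)) (-S) y +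
        1 * zf u (tn n) (xn n) (en n) (-S) y| +
      hk S y * |zf u (tn n) (xn n) (en n) (-S) y| := by
    intro y
    rw [← mul_add]
    refine mul_le_mul_of_nonneg_left ?_ (hk_nonneg hS.le y)
    have := abs_sub (hf u (tn n) (xn n) (en n) (wv cc α M (en n) (an n)) (-S) y +
        1 * zf u (tn n) (xn n) (en n) (-S) y) (zf u (tn n) (xn n) (en n) (-S) y)
    rw [one_mul, add_sub_cancel_right] at this
    rwa [one_mul]
  calc ∫ y, hk S y * |hf u (tn n) (xn n) (en n) (wv cc α M (en n) (an n)) (-S) y| ≤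
      ∫ y, (hk S y * |hf u (tn n) (xn n) (en n) (wv cc α M (en n) (an n)) (-S) y +
        1 * zf u (tn n) (xn n) (en n) (-S) y| +
      hk S y * |zf u (tn n) (xn n) (en n) (-S) y|) := integral_mono i1 (i3.add i2) h5
    _ = (∫ y, hk S y * |hf u (tn n) (xn n) (en n) (wv cc α M (en n) (an n)) (-S) y +
        1 * zf u (tn n) (xn n) (en n) (-S) y|) +
      ∫ y, hk S y * |zf u (tn n) (xn n) (en n) (-S) y| := integral_add i3 i2
    _ ≤ Real.exp (K * S) * (4 * 1) + Real.exp (K * S) * 3 := add_le_add h2.2.2 h3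
    _ = _ := by ring

/-- convergence of the potentials -/
theorem pot_lim (hFPC : T_FPC) (h : Sq f K U u cc α M tn xn en an e a) {v : ℝ → E N → ℝ}
    (hv : Ent f v) (hl : LimAt u tn xn v) (t : ℝ) (x : E N) :
    Tendsto (fun n => pot f u (tn n + t) (xn n + x)) atTop (𝓝 (potE f v t x)) := by
  obtain ⟨-, hc, -, -⟩ := hFPC f K h.reac h.lip
  have h1 : Tendsto (fun n => u (tn n + t) (xn n + x)) atTop (𝓝 (v t x)) := by
    have h2 := (hl (|t| + ‖x‖ + 1) (by positivity)).tendsto_at (x := (t, x))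
      ⟨⟨by linarith [neg_abs_le t, norm_nonneg x], by linarith [le_abs_self t, norm_nonneg x]⟩, by
        rw [mem_closedBall_zero_iff]; linarith [abs_nonneg t]⟩
    exact h2
  have h3 : ∀ᶠ n in atTop, 0 < tn n + t := by
    filter_upwards [h.tt.eventually_gt_atTop (-t)] with n hn
    linarith
  have h4 : Tendsto (fun n => u (tn n + t) (xn n + x)) atTop (𝓝[Icc 0 1] (v t x)) := by
    rw [tendsto_nhdsWithin_iff]
    exact ⟨h1, h3.mono fun n hn => Pool.Agent.H76.RF.u_mem h.sol hn _⟩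
  have h5 := (hc (v t x) (hv.2 t x)).tendsto.comp h4
  refine h5.congr' ?_
  filter_upwards [h3] with n hn
  exact (Pool.Agent.H76.RF.pot_pos hn _).symm

/-- the limit of the slopes along a subsequence -/
theorem ext_z (hLCPT : T_LCPT) (hREP : T_KREP) (hKER : T_KER) (hNSUP : T_NSUP) (hLINU : T_LINU)
    (hFPC : T_FPC) (hcc : 0 < cc) (hα : 0 ≤ α) (h : Sq f K U u cc α M tn xn en an e a)
    {v : ℝ → E N → ℝ} (hv : Ent f v) (hl : LimAt u tn xn v) (hW : Pt K (potE f v)) :
    ∃ (σ : ℕ → ℕ) (ζ : ℝ → E N → ℝ), StrictMono σ ∧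
      (∀ R > 0, ∀ r > 0, TendstoUniformlyOn
        (fun n (p : ℝ × E N) => zf u (tn (σ n)) (xn (σ n)) (en (σ n)) p.1 p.2)
        (fun p => ζ p.1 p.2) atTop (Icc (-R) (-r) ×ˢ closedBall 0 R)) ∧
      ContinuousOn (fun p : ℝ × E N => ζ p.1 p.2) (Iio 0 ×ˢ univ) ∧
      (∀ s t, s < t → t < 0 → ∀ x, Integrable (fun y => gk (potE f v) t x s y * ζ s y) ∧
        ζ t x = ∫ y, gk (potE f v) t x s y * ζ s y) := by
  obtain ⟨σ, ζ, h1, h2, h3, h4, -⟩ := hLCPT N K (fun n t x => pot f u (tn n + t) (xn n + x))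
    (potE f v) (fun n => zf u (tn n) (xn n) (en n)) (fun n => 1 - tn n) (pots hLINU h) hW
    (fun t _ x => pot_lim hFPC h hv hl t x)
    (tendsto_atBot_add_const_left _ 1 (tendsto_neg_atTop_atBot.comp h.tt))
    (fun n => zf_lin hLINU h.reac h.lip h.sol (h.t2 n) (xn n) (en n))
    (fun S hS => ⟨_, z_mass hREP hKER hNSUP hLINU hcc hα h hS⟩)
  exact ⟨σ, ζ, h1, h2, h3, h4⟩

theorem pt_of_unif {F : ℕ → ℝ → E N → ℝ} {G : ℝ → E N → ℝ}
    (h : ∀ R > 0, ∀ r > 0, TendstoUniformlyOn (fun n (p : ℝ × E N) => F n p.1 p.2)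
      (fun p => G p.1 p.2) atTop (Icc (-R) (-r) ×ˢ closedBall 0 R)) {t : ℝ} (ht : t < 0)
    (x : E N) : Tendsto (fun n => F n t x) atTop (𝓝 (G t x)) := by
  have h1 : (t, x) ∈ Icc (-(|t| + ‖x‖ + 1)) (-(-t)) ×ˢ closedBall (0 : E N) (|t| + ‖x‖ + 1) := by
    refine ⟨⟨by linarith [neg_abs_le t, norm_nonneg x], by simp⟩, ?_⟩
    rw [mem_closedBall_zero_iff]; linarith [abs_nonneg t]
  exact (h (|t| + ‖x‖ + 1) (by positivity) (-t) (by linarith)).tendsto_at h1

/-- along a subsequence `H → 0` locally uniformly -/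
theorem ext_h (hLCPT : T_LCPT) (hREP : T_KREP) (hKER : T_KER) (hNSUP : T_NSUP) (hLINU : T_LINU)
    (hFPC : T_FPC) (hcc : 0 < cc) (hα : 0 ≤ α) (h : Sq f K U u cc α M tn xn en an e a)
    {v : ℝ → E N → ℝ} (hv : Ent f v) (hl : LimAt u tn xn v) (hW : Pt K (potE f v))
    {ζ : ℝ → E N → ℝ}
    (hz : ∀ R > 0, ∀ r > 0, TendstoUniformlyOn
        (fun n (p : ℝ × E N) => zf u (tn n) (xn n) (en n) p.1 p.2)
        (fun p => ζ p.1 p.2) atTop (Icc (-R) (-r) ×ˢ closedBall 0 R)) :
    ∃ σ : ℕ → ℕ, StrictMono σ ∧ ∀ R > 0, ∀ r > 0, TendstoUniformlyOn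
        (fun n (p : ℝ × E N) => hf u (tn (σ n)) (xn (σ n)) (en (σ n))
          (wv cc α M (en (σ n)) (an (σ n))) p.1 p.2)
        (fun _ => 0) atTop (Icc (-R) (-r) ×ˢ closedBall 0 R) := by
  obtain ⟨σ, ζ', h1, h2, h3, -, -⟩ := hLCPT N K (fun n t x => pot f u (tn n + t) (xn n + x))
    (potE f v) (fun n => hf u (tn n) (xn n) (en n) (wv cc α M (en n) (an n)))
    (fun n => 1 - tn n) (pots hLINU h) hW (fun t _ x => pot_lim hFPC h hv hl t x)
    (tendsto_atBot_add_const_left _ 1 (tendsto_neg_atTop_atBot.comp h.tt))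
    (fun n => hf_lin hLINU h.reac h.lip h.sol (h.t2 n) (xn n) (en n) _)
    (fun S hS => ⟨_, h_mass hREP hKER hNSUP hLINU hcc hα h hS⟩)
  refine ⟨σ, h1, ?_⟩
  have hσ := h1.tendsto_atTop
  have hzp : ∀ t < 0, ∀ x, Tendsto (fun n => zf u (tn (σ n)) (xn (σ n)) (en (σ n)) t x) atTop
      (𝓝 (ζ t x)) := fun t ht x =>
    (pt_of_unif (F := fun n => zf u (tn n) (xn n) (en n)) hz ht x).comp hσ
  have hhp : ∀ t < 0, ∀ x, Tendsto (fun n => hf u (tn (σ n)) (xn (σ n)) (en (σ n))
      (wv cc α M (en (σ n)) (an (σ n))) t x) atTop (𝓝 (ζ' t x)) := fun t ht x =>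
    pt_of_unif (F := fun n => hf u (tn (σ n)) (xn (σ n)) (en (σ n))
      (wv cc α M (en (σ n)) (an (σ n)))) h2 ht x
  -- the sign
  have hnn : ∀ t < 0, ∀ x, 0 ≤ ζ' t x := by
    intro t ht x
    by_contra hc
    have hc := not_le.1 hc
    set q := |ζ t x| + 1 with hq
    have hq0 : 0 < q := by positivity
    set ε := -ζ' t x / (2 * q) with hε
    have hε0 : 0 < ε := by
      rw [hε]; exact div_pos (by linarith) (by positivity)
    obtain ⟨ρ, hρ, h5⟩ := comb h hε0
    have h6 : ∀ᶠ n in atTop, 0 ≤ hf u (tn (σ n)) (xn (σ n)) (en (σ n))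
        (wv cc α M (en (σ n)) (an (σ n))) t x + ε * zf u (tn (σ n)) (xn (σ n)) (en (σ n)) t x := by
      filter_upwards [hσ.eventually h5, (h.tt.comp hσ).eventually_ge_atTop ((|t| + ‖x‖) / ρ)]
        with n h7 h8
      have h9 : |t| + ‖x‖ ≤ ρ * tn (σ n) := by
        have h8' : (|t| + ‖x‖) / ρ ≤ tn (σ n) := h8
        rw [div_le_iff₀ hρ] at h8'
        linarith
      exact (h7.1 t ⟨by linarith [neg_abs_le t, norm_nonneg x], ht.le⟩ x
        (by linarith [abs_nonneg t])).2
    have h7 := ge_of_tendsto ((hhp t ht x).add ((hzp t ht x).const_mul ε)) h6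
    have h8 : ε * ζ t x ≤ ε * q := mul_le_mul_of_nonneg_left (by
      linarith [le_abs_self (ζ t x)]) hε0.le
    have h9 : ε * q = -ζ' t x / 2 := by
      rw [hε]; field_simp
    linarith
  -- vanishing
  have hzero : ∀ t < 0, ∀ x, ζ' t x = 0 := by
    intro t ht x
    refine le_antisymm ?_ (hnn t ht x)
    by_contra hc
    have hc := not_le.1 hc
    set c := ζ' t x / 2 with hcdef
    have hc0 : 0 < c := by rw [hcdef]; linarith
    -- lower bound in a ball
    have hcont : ContinuousAt (fun p : ℝ × E N => ζ' p.1 p.2) (t, x) :=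
      h3.continuousAt (prod_mem_nhds (Iio_mem_nhds ht) univ_mem)
    have hcont' : ContinuousAt (fun y => ζ' t y) x :=
      ContinuousAt.comp (g := fun p : ℝ × E N => ζ' p.1 p.2) (f := fun y : E N => (t, y)) hcont
        (by fun_prop)
    obtain ⟨r, hr, hr1⟩ := Metric.continuousAt_iff.1 hcont' (c / 2) (by positivity)
    have hball : ∀ᶠ n in atTop, ∀ y ∈ ball x (min r 1), c ≤ hf u (tn (σ n)) (xn (σ n))
        (en (σ n)) (wv cc α M (en (σ n)) (an (σ n))) t y := by
      have h5 := Metric.tendstoUniformlyOn_iff.1 (h2 (|t| + ‖x‖ + 1) (by positivity) (-t)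
        (by linarith)) (c / 2) (by positivity)
      filter_upwards [h5] with n h6 y hy
      have hy' : dist y x < min r 1 := hy
      have h7 := h6 (t, y) ⟨⟨by linarith [neg_abs_le t, norm_nonneg x], by simp⟩, by
        rw [mem_closedBall_zero_iff]
        have : ‖y‖ ≤ ‖x‖ + ‖y - x‖ := by
          calc ‖y‖ = ‖x + (y - x)‖ := by congr 1; abel
            _ ≤ _ := norm_add_le _ _
        rw [← dist_eq_norm] at this
        linarith [hy'.le.trans (min_le_right r 1), abs_nonneg t]⟩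
      have h8 := hr1 (lt_of_lt_of_le hy' (min_le_left r 1))
      rw [Real.dist_eq] at h7 h8
      have h9 := (abs_lt.1 h7).2
      have h10 := (abs_lt.1 h8).1
      simp only at h9
      linarith [hcdef]
    -- the mass of the ball
    set S := -t with hS
    have hS0 : 0 < S := by rw [hS]; linarith
    set κ := ∫ y in ball x (min r 1), hk S y with hκ
    have hκ0 : 0 < κ := by
      rw [hκ, setIntegral_pos_iff_support_of_nonneg_ae]
      · have : (Function.support fun y : E N => hk S y) = univ := by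
          ext y; simp [(hk_pos hS0 y).ne']
        rw [this, univ_inter]
        exact measure_ball_pos _ _ (lt_min hr one_pos)
      · exact Eventually.of_forall fun y => hk_nonneg hS0.le y
      · exact (integrable_hk hS0).integrableOn
    set ε := c * κ / (6 * Real.exp (K * S)) with hε
    have hε0 : 0 < ε := by positivity
    obtain ⟨ρ, hρ, h5⟩ := h_near hREP hKER hNSUP hLINU hcc hα h hS0 hε0
    obtain ⟨n, hn1, hn2, hn3, hn4⟩ := (hball.and ((hσ.eventually h5).and
      (((h.tt.comp hσ).eventually_ge_atTop ((|t| + ‖x‖ + 1) / ρ)).and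
        ((h.tt.comp hσ).eventually_ge_atTop (1 + S))))).exists
    have hn4' : 1 + S ≤ tn (σ n) := hn4
    have hn3' : |t| + ‖x‖ + 1 ≤ ρ * tn (σ n) := by
      have h8' : (|t| + ‖x‖ + 1) / ρ ≤ tn (σ n) := hn3
      rw [div_le_iff₀ hρ] at h8'
      linarith
    obtain ⟨hnn1, hnn2, -⟩ := hn2
    have hSt : -S = t := by rw [hS]; ring
    rw [hSt] at hnn2
    set A := closedBall (0 : E N) (ρ * tn (σ n)) with hA
    set G : E N → ℝ := fun y => hf u (tn (σ n)) (xn (σ n)) (en (σ n))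
        (wv cc α M (en (σ n)) (an (σ n))) t y + ε * zf u (tn (σ n)) (xn (σ n)) (en (σ n)) t y
      with hG
    have hsub : ∀ y ∈ ball x (min r 1), y ∈ A := by
      intro y hy
      have hy' : dist y x < min r 1 := hy
      rw [hA, mem_closedBall_zero_iff]
      have : ‖y‖ ≤ ‖x‖ + ‖y - x‖ := by
        calc ‖y‖ = ‖x + (y - x)‖ := by congr 1; abel
          _ ≤ _ := norm_add_le _ _
      rw [← dist_eq_norm] at this
      linarith [hy'.le.trans (min_le_right r 1), abs_nonneg t]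
    have htI : t ∈ Icc (-(ρ * tn (σ n))) 0 :=
      ⟨by linarith [neg_abs_le t, norm_nonneg x], ht.le⟩
    have hGA : ∀ y ∈ A, 0 ≤ G y := fun y hy =>
      (hnn1 t htI y (by simpa [hA] using hy)).2
    have hint : Integrable (fun y => hk S y * A.indicator G y) := by
      have hlin : LinD (fun t x => pot f u (tn (σ n) + t) (xn (σ n) + x)) (1 - tn (σ n)) 0
          (fun t y => hf u (tn (σ n)) (xn (σ n)) (en (σ n))
            (wv cc α M (en (σ n)) (an (σ n))) t y +
            ε * zf u (tn (σ n)) (xn (σ n)) (en (σ n)) t y) := by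
        have := lin_comb (pots hLINU h (σ n))
          (hf_lin hLINU h.reac h.lip h.sol (h.t2 (σ n)) (xn (σ n)) (en (σ n))
            (wv cc α M (en (σ n)) (an (σ n))))
          (zf_lin hLINU h.reac h.lip h.sol (h.t2 (σ n)) (xn (σ n)) (en (σ n))) 1 ε
        simpa only [one_mul] using this
      exact lin_ind hlin hS0 (s := t) (by linarith) ht.le measurableSet_closedBall
    have h10 : c * κ ≤ ∫ y, hk S y * A.indicator G y := by
      rw [hκ, ← integral_const_mul, ← integral_indicator measurableSet_ball]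
      refine integral_mono_of_nonneg (Eventually.of_forall fun y => ?_) hint
        (Eventually.of_forall fun y => ?_)
      · exact indicator_nonneg (fun z _ => mul_nonneg hc0.le (hk_nonneg hS0.le z)) y
      · by_cases hy : y ∈ ball x (min r 1)
        · simp only [indicator_of_mem hy, indicator_of_mem (hsub y hy)]
          rw [mul_comm]
          refine mul_le_mul_of_nonneg_left ?_ (hk_nonneg hS0.le y)
          have k1 := hn1 y hy
          have k2 := (hnn1 t htI y (by simpa [hA] using hsub y hy)).1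
          simp only [hG]
          nlinarith
        · simp only [indicator_of_notMem hy]
          refine mul_nonneg (hk_nonneg hS0.le y) ?_
          exact indicator_nonneg (fun z hz => hGA z hz) y
    have h11 : Real.exp (K * S) * (3 * ε) = c * κ / 2 := by
      rw [hε]; field_simp; ring
    have h12 : 0 < c * κ := mul_pos hc0 hκ0
    linarith
  intro R hR r hr
  have h5 := h2 R hR r hr
  rw [Metric.tendstoUniformlyOn_iff] at h5 ⊢
  intro ε hε
  filter_upwards [h5 ε hε] with n hn p hp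
  have := hn p hp
  rwa [hzero p.1 (by have := hp.1.2; linarith) p.2] at this

end Pool.Agent.H90.RF.LIBA
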