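import Pool.Agent.H90.RF.LibaD

/-!
# MP_609556_an, module LIBA, part E: transport along the velocity
-/

set_option autoImplicit false

open MeasureTheory Set Filter Topology Metric
open Pool.Agent.H29.TF (hk P hk_pos hk_nonneg integrable_hk integrable_hk_sub)
open Pool.Agent.H91.RD Pool.Agent.H91.RF

namespace Pool.Agent.H90.RF.LIBA

variable {N : ℕ} {f : ℝ → ℝ} {K : ℝ} {U : Set (E N)} {u : ℝ → E N → ℝ} {cc α M : ℝ}
  {tn : ℕ → ℝ} {xn en an : ℕ → E N} {e a : E N}

/-- chain rule along a line in space-time -/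
theorem path_deriv (hs : SolM f U u) (T : ℝ) (X w : E N) (t r : ℝ) (hr : 0 < T + r) :
    HasDerivAt (fun r => u (T + r) (X + (r - t) • w))
      (dt u (T + r) (X + (r - t) • w) + dx u w (T + r) (X + (r - t) • w)) r := by
  have hopen : ∀ q : ℝ × E N, 0 < q.1 → (Ioi (0 : ℝ) ×ˢ (univ : Set (E N))) ∈ 𝓝 q := fun q hq =>
    prod_mem_nhds (Ioi_mem_nhds hq) univ_mem
  set q : ℝ × E N := (T + r, X + (r - t) • w) with hq
  have hq0 : 0 < q.1 := hr
  have h1 : HasStrictFDerivAt (Function.uncurry u)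
      ((ContinuousLinearMap.toSpanSingleton ℝ (dt u q.1 q.2)).coprod (fderiv ℝ (u q.1) q.2))
      q := by
    refine hasStrictFDerivAt_uncurry_coprod (𝕜 := ℝ) (f := u)
      (f₁ := fun s x => ContinuousLinearMap.toSpanSingleton ℝ (dt u s x))
      (f₂ := fun s x => fderiv ℝ (u s) x) ?_ ?_ ?_ ?_
    · filter_upwards [hopen q hq0] with v hv
      have := (hs.sol.dt v.1 hv.1 v.2).hasDerivAt
      exact this.hasFDerivAt
    · filter_upwards [hopen q hq0] with v hv
      exact ((hs.sol.c2 v.1 hv.1).differentiable (by norm_num) v.2).hasFDerivAt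
    · have h2 : ContinuousAt (fun p : ℝ × E N => dt u p.1 p.2) q :=
        hs.sol.cont_dt.continuousAt (hopen q hq0)
      have h3 : (↿fun (s : ℝ) (x : E N) => ContinuousLinearMap.toSpanSingleton ℝ (dt u s x)) =
          fun p : ℝ × E N => (dt u p.1 p.2) • (ContinuousLinearMap.id ℝ ℝ) := by
        funext p
        ext
        simp [Function.HasUncurry.uncurry]
      rw [h3]
      exact h2.smul continuousAt_const
    · exact hs.sol.cont_dx.continuousAt (hopen q hq0)
  have h2 : HasDerivAt (fun r : ℝ => (T + r, X + (r - t) • w)) ((1 : ℝ), w) r := by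
    refine HasDerivAt.prodMk ?_ ?_
    · exact (hasDerivAt_id r).const_add T
    · have := ((hasDerivAt_id r).sub_const t).smul_const w
      rw [one_smul] at this
      exact this.const_add X
  have h3 := (h1.hasFDerivAt.comp_hasDerivAt r h2)
  have h4 : ((ContinuousLinearMap.toSpanSingleton ℝ (dt u q.1 q.2)).coprod
      (fderiv ℝ (u q.1) q.2)) (1, w) =
      dt u (T + r) (X + (r - t) • w) + dx u w (T + r) (X + (r - t) • w) := by
    rw [ContinuousLinearMap.coprod_apply]
    simp [dx, hq]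
  rw [h4] at h3
  exact h3

theorem line_deriv (hs : SolM f U u) {T : ℝ} (hT : 0 < T) (X e : E N) (c : ℝ) :
    HasDerivAt (fun c => u T (X + c • e)) (dx u e T (X + c • e)) c := by
  have h1 := ((hs.sol.c2 T hT).differentiable (by norm_num) (X + c • e)).hasFDerivAt
  have h2 : HasDerivAt (fun c : ℝ => X + c • e) e c := by
    have := (hasDerivAt_id c).smul_const e
    rw [one_smul] at this
    exact this.const_add X
  exact h1.comp_hasDerivAt c h2

theorem incr_bound (hs : SolM f U u) {T : ℝ} {X w : E N} {t t' B : ℝ}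
    (h0 : ∀ r ∈ uIcc t t', 0 < T + r)
    (hB : ∀ r ∈ uIcc t t', |dt u (T + r) (X + (r - t) • w) + dx u w (T + r) (X + (r - t) • w)| ≤ B) :
    |u (T + t') (X + (t' - t) • w) - u (T + t) X| ≤ B * |t' - t| := by
  have h1 := (convex_uIcc t t').norm_image_sub_le_of_norm_hasDerivWithin_le
    (f := fun r => u (T + r) (X + (r - t) • w))
    (f' := fun r => dt u (T + r) (X + (r - t) • w) + dx u w (T + r) (X + (r - t) • w)) (C := B)
    (fun r hr => (path_deriv hs T X w t r (h0 r hr)).hasDerivWithinAt)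
    (fun r hr => hB r hr) left_mem_uIcc right_mem_uIcc
  simpa using h1

/-- small increments along the velocity -/
theorem incr (hcc : 0 < cc) (hα : 0 ≤ α) (h : Sq f K U u cc α M tn xn en an e a)
    (hH : ∀ R > 0, ∀ r > 0, TendstoUniformlyOn
        (fun n (p : ℝ × E N) => hf u (tn n) (xn n) (en n) (wv cc α M (en n) (an n)) p.1 p.2)
        (fun _ => 0) atTop (Icc (-R) (-r) ×ˢ closedBall 0 R)) {t t' : ℝ} (ht : t < 0)
    (ht' : t' < 0) {ρ : ℝ} (hρ : 0 ≤ ρ) {ε : ℝ} (hε : 0 < ε) :
    ∀ᶠ n in atTop, ∀ y, ‖y‖ ≤ ρ →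
      |u (tn n + t') (xn n + (y + (t' - t) • wv cc α M (en n) (an n))) -
        u (tn n + t) (xn n + y)| ≤ -dx u (en n) (tn n) (xn n) * (ε * |t' - t|) := by
  set W := |cc * (1 - α ^ 2) - M| + 2 * cc * α with hW
  have hW0 : 0 ≤ W := by positivity
  set R := |t| + |t'| + ρ + |t' - t| * W + 1 with hR
  have hRW : 0 ≤ |t' - t| * W := by positivity
  have hR0 : 0 < R := by positivity
  have h1 := Metric.tendstoUniformlyOn_iff.1 (hH R hR0 (min (-t) (-t'))
    (lt_min (by linarith) (by linarith))) ε hε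
  filter_upwards [h1, h.tt.eventually_gt_atTop (|t| + |t'|)] with n hn hn2 y hy
  have hp := h.pos n
  set w := wv cc α M (en n) (an n) with hw
  have hwW : ‖w‖ ≤ W := norm_wv hcc (h.e1 n) (h.a1 n)
  have hr : ∀ r ∈ uIcc t t', -(|t| + |t'|) ≤ r ∧ r ≤ -(min (-t) (-t')) ∧ |r - t| ≤ |t' - t| := by
    intro r hr
    refine ⟨?_, ?_, ?_⟩
    · rcases le_total t t' with h' | h'
      · rw [uIcc_of_le h'] at hr
        linarith [hr.1, neg_abs_le t, abs_nonneg t']
      · rw [uIcc_of_ge h'] at hr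
        linarith [hr.1, neg_abs_le t', abs_nonneg t]
    · rcases le_total t t' with h' | h'
      · rw [uIcc_of_le h'] at hr
        linarith [hr.2, min_le_right (-t) (-t')]
      · rw [uIcc_of_ge h'] at hr
        linarith [hr.2, min_le_left (-t) (-t')]
    · exact abs_sub_left_of_mem_uIcc hr
  have h2 := incr_bound h.sol (T := tn n) (X := xn n + y) (w := w) (t := t) (t' := t')
    (B := ε * -dx u (en n) (tn n) (xn n))
    (fun r hr' => by linarith [(hr r hr').1]) (fun r hr' => by
      obtain ⟨k1, k2, k3⟩ := hr r hr'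
      have k4 : ‖y + (r - t) • w‖ ≤ R := by
        refine (norm_add_le _ _).trans ?_
        rw [norm_smul, Real.norm_eq_abs]
        have : |r - t| * ‖w‖ ≤ |t' - t| * W :=
          mul_le_mul k3 hwW (norm_nonneg _) (abs_nonneg _)
        linarith [abs_nonneg t, abs_nonneg t']
      have k5 := hn (r, y + (r - t) • w) ⟨⟨by linarith, k2⟩, by
        rw [mem_closedBall_zero_iff]; exact k4⟩
      rw [dist_comm, Real.dist_eq, sub_zero] at k5
      unfold hf at k5
      rw [abs_div, abs_of_pos hp, div_lt_iff₀ hp, ← add_assoc] at k5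
      exact k5.le)
  rw [← add_assoc]
  refine h2.trans (le_of_eq ?_)
  ring

/-- moving points -/
theorem lim_moving {F : ℕ → ℝ → E N → ℝ} {G : ℝ → E N → ℝ}
    (h : ∀ R > 0, ∀ r > 0, TendstoUniformlyOn (fun n (p : ℝ × E N) => F n p.1 p.2)
      (fun p => G p.1 p.2) atTop (Icc (-R) (-r) ×ˢ closedBall 0 R))
    (hc : ContinuousOn (fun p : ℝ × E N => G p.1 p.2) (Iio 0 ×ˢ univ)) {t : ℝ} (ht : t < 0)
    {yn : ℕ → E N} {y : E N} (hy : Tendsto yn atTop (𝓝 y)) :
    Tendsto (fun n => F n t (yn n)) atTop (𝓝 (G t y)) := by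
  have h1 := Metric.tendstoUniformlyOn_iff.1 (h (|t| + ‖y‖ + 1) (by positivity) (-t)
    (by linarith))
  have hc1 : ContinuousAt (fun p : ℝ × E N => G p.1 p.2) (t, y) :=
    hc.continuousAt (prod_mem_nhds (Iio_mem_nhds ht) univ_mem)
  have h2 : Tendsto (fun n => G t (yn n)) atTop (𝓝 (G t y)) :=
    hc1.tendsto.comp (tendsto_const_nhds.prodMk_nhds hy)
  rw [Metric.tendsto_atTop'] at h2 ⊢
  intro ε hε
  have h3 : ∀ᶠ n in atTop, dist (G t (yn n)) (G t y) < ε / 2 := by
    obtain ⟨n0, hn0⟩ := h2 (ε / 2) (by positivity)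
    filter_upwards [eventually_gt_atTop n0] with n hn using hn0 n hn
  have h4 : ∀ᶠ n in atTop, dist (yn n) y < 1 := (Metric.tendsto_nhds.1 hy) 1 one_pos
  obtain ⟨n0, hn0⟩ := eventually_atTop.1 (h3.and (h4.and (h1 (ε / 2) (by positivity))))
  refine ⟨n0, fun n hn => ?_⟩
  obtain ⟨k1, k2, k3⟩ := hn0 n hn.le
  have k4 := k3 (t, yn n) ⟨⟨by linarith [neg_abs_le t, norm_nonneg y], by simp⟩, by
    rw [mem_closedBall_zero_iff]
    have : ‖yn n‖ ≤ ‖y‖ + ‖yn n - y‖ := by
      calc ‖yn n‖ = ‖y + (yn n - y)‖ := by congr 1; abel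
        _ ≤ _ := norm_add_le _ _
    rw [← dist_eq_norm] at this
    linarith [abs_nonneg t]⟩
  rw [dist_comm] at k4
  calc dist (F n t (yn n)) (G t y) ≤ dist (F n t (yn n)) (G t (yn n)) +
        dist (G t (yn n)) (G t y) := dist_triangle _ _ _
    _ < ε := by simp only at k4; linarith

/-- the limit profile is transported -/
theorem v_transport (hLINU : T_LINU) (hcc : 0 < cc) (hα : 0 ≤ α)
    (h : Sq f K U u cc α M tn xn en an e a)
    (hH : ∀ R > 0, ∀ r > 0, TendstoUniformlyOn
        (fun n (p : ℝ × E N) => hf u (tn n) (xn n) (en n) (wv cc α M (en n) (an n)) p.1 p.2)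
        (fun _ => 0) atTop (Icc (-R) (-r) ×ˢ closedBall 0 R)) {v : ℝ → E N → ℝ}
    (hv : Ent f v) (hl : LimAt u tn xn v) {t t' : ℝ} (ht : t < 0) (ht' : t' < 0) (x : E N) :
    v t' (x + (t' - t) • wv cc α M e a) = v t x := by
  obtain ⟨-, -, -, C, hC⟩ := hLINU N f K U u h.reac h.lip h.sol
  have hC0 : 0 ≤ C := (norm_nonneg _).trans (hC 1 le_rfl 0).1
  have hcv : ContinuousOn (fun p : ℝ × E N => v p.1 p.2) (Iio 0 ×ˢ univ) := by
    intro p _
    exact ((hv.1 (p.1 - 1)).cont.continuousAt (prod_mem_nhds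
      (Ioi_mem_nhds (by linarith)) univ_mem)).continuousWithinAt
  have hu : ∀ R > 0, ∀ r > 0, TendstoUniformlyOn
      (fun n (p : ℝ × E N) => (fun n t x => u (tn n + t) (xn n + x)) n p.1 p.2)
      (fun p => v p.1 p.2) atTop (Icc (-R) (-r) ×ˢ closedBall 0 R) := fun R hR r hr =>
    (hl R hR).mono (prod_mono (Icc_subset_Icc_right (by linarith)) subset_rfl)
  have hw := (wv_tendsto h).const_smul (t' - t)
  have h1 := lim_moving (F := fun n t x => u (tn n + t) (xn n + x)) hu hcv ht' (hw.const_add x)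
  have h2 := pt_of_unif (F := fun n t x => u (tn n + t) (xn n + x)) hu ht x
  have h3 := (h1.sub h2).abs
  have h4 : ∀ ε > 0, |v t' (x + (t' - t) • wv cc α M e a) - v t x| ≤ C * (ε * |t' - t|) := by
    intro ε hε
    refine le_of_tendsto h3 ?_
    filter_upwards [incr hcc hα h hH ht ht' (norm_nonneg x) hε] with n hn
    refine (hn x le_rfl).trans ?_
    refine mul_le_mul_of_nonneg_right ?_ (by positivity)
    have k1 := dx_le_gr (u := u) (en n) (tn n) (xn n)
    rw [h.e1 n, mul_one] at k1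
    have k2 := (hC (tn n) (by linarith [h.t2 n]) (xn n)).1
    have k3 := neg_abs_le (dx u (en n) (tn n) (xn n))
    linarith
  have h5 : |v t' (x + (t' - t) • wv cc α M e a) - v t x| ≤ 0 := by
    refine le_of_forall_pos_le_add fun η hη => ?_
    have h6 := h4 (η / (C * |t' - t| + 1)) (by positivity)
    have h7 : C * (η / (C * |t' - t| + 1) * |t' - t|) ≤ η := by
      have h8 : 0 ≤ C * |t' - t| := by positivity
      rw [show C * (η / (C * |t' - t| + 1) * |t' - t|) =
        η * (C * |t' - t|) / (C * |t' - t| + 1) by ring, div_le_iff₀ (by positivity)]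
      nlinarith
    linarith
  exact sub_eq_zero.1 (abs_nonpos_iff.1 h5)

/-- the limit slope is transported -/
theorem z_transport (hcc : 0 < cc) (hα : 0 ≤ α) (h : Sq f K U u cc α M tn xn en an e a)
    (hH : ∀ R > 0, ∀ r > 0, TendstoUniformlyOn
        (fun n (p : ℝ × E N) => hf u (tn n) (xn n) (en n) (wv cc α M (en n) (an n)) p.1 p.2)
        (fun _ => 0) atTop (Icc (-R) (-r) ×ˢ closedBall 0 R)) {ζ : ℝ → E N → ℝ}
    (hz : ∀ R > 0, ∀ r > 0, TendstoUniformlyOn
        (fun n (p : ℝ × E N) => zf u (tn n) (xn n) (en n) p.1 p.2)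
        (fun p => ζ p.1 p.2) atTop (Icc (-R) (-r) ×ˢ closedBall 0 R))
    (hc : ContinuousOn (fun p : ℝ × E N => ζ p.1 p.2) (Iio 0 ×ˢ univ)) {t t' : ℝ} (ht : t < 0)
    (ht' : t' < 0) (x : E N) :
    ζ t' (x + (t' - t) • wv cc α M e a) = ζ t x := by
  have hcs : ∀ {s : ℝ}, s < 0 → ∀ y, ContinuousAt (fun y => ζ s y) y := by
    intro s hs y
    have : ContinuousAt (fun p : ℝ × E N => ζ p.1 p.2) (s, y) :=
      hc.continuousAt (prod_mem_nhds (Iio_mem_nhds hs) univ_mem)
    exact ContinuousAt.comp (g := fun p : ℝ × E N => ζ p.1 p.2) (f := fun y : E N => (s, y)) this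
      (by fun_prop)
  set w := wv cc α M e a with hw
  set W := |cc * (1 - α ^ 2) - M| + 2 * cc * α with hW
  have hW0 : 0 ≤ W := by positivity
  have hmain : ∀ η > 0, |ζ t' (x + (t' - t) • w) - ζ t x| ≤ 5 * η := by
    intro η hη
    obtain ⟨d1, hd1, k1⟩ := Metric.continuousAt_iff.1 (hcs ht' (x + (t' - t) • w)) η hη
    obtain ⟨d2, hd2, k2⟩ := Metric.continuousAt_iff.1 (hcs ht x) η hη
    set s := min d1 d2 / 2 with hs
    have hs0 : 0 < s := by rw [hs]; exact half_pos (lt_min hd1 hd2)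
    have hs1 : s ≤ d1 / 2 := by rw [hs]; linarith [min_le_left d1 d2]
    have hs2 : s < d2 := by rw [hs]; linarith [min_le_right d1 d2]
    set ε := η * s / (2 * (|t' - t| + 1)) with hε
    have hε0 : 0 < ε := by positivity
    set R := |t| + |t'| + ‖x‖ + s + |t' - t| * W + 1 with hR
    have hRW : 0 ≤ |t' - t| * W := by positivity
    have hR0 : 0 < R := by positivity
    have u1 := Metric.tendstoUniformlyOn_iff.1 (hz R hR0 (-t) (by linarith)) η hη
    have u2 := Metric.tendstoUniformlyOn_iff.1 (hz R hR0 (-t') (by linarith)) η hη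
    have u3 := incr hcc hα h hH ht ht' (ρ := ‖x‖ + s) (by positivity) hε0
    have u4 : ∀ᶠ n in atTop, |t' - t| * dist (wv cc α M (en n) (an n)) w < d1 / 2 := by
      have h1 : Tendsto (fun n => |t' - t| * dist (wv cc α M (en n) (an n)) w) atTop
          (𝓝 (|t' - t| * 0)) := by
        refine Tendsto.const_mul _ ?_
        exact tendsto_iff_dist_tendsto_zero.1 (wv_tendsto h)
      rw [mul_zero] at h1
      exact h1.eventually (gt_mem_nhds (by linarith))
    obtain ⟨n, ⟨n1, n2⟩, n3, n4, n5⟩ := ((u1.and u2).and (u3.and (u4.and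
      (h.tt.eventually_gt_atTop (|t| + |t'|))))).exists
    have hp := h.pos n
    set wn := wv cc α M (en n) (an n) with hwn
    have hwW : ‖wn‖ ≤ W := norm_wv hcc (h.e1 n) (h.a1 n)
    have hT1 : 0 < tn n + t := by linarith [neg_abs_le t, abs_nonneg t']
    have hT2 : 0 < tn n + t' := by linarith [neg_abs_le t', abs_nonneg t]
    set pn := -dx u (en n) (tn n) (xn n) with hpn
    -- the mean value theorem
    set φ : ℝ → ℝ := fun c => u (tn n + t') ((xn n + (x + (t' - t) • wn)) + c • en n) -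
      u (tn n + t) ((xn n + x) + c • en n) with hφ
    set φ' : ℝ → ℝ := fun c => dx u (en n) (tn n + t') ((xn n + (x + (t' - t) • wn)) + c • en n) -
      dx u (en n) (tn n + t) ((xn n + x) + c • en n) with hφ'
    have hder : ∀ c, HasDerivAt φ (φ' c) c := fun c =>
      (line_deriv h.sol hT2 _ _ c).sub (line_deriv h.sol hT1 _ _ c)
    obtain ⟨c, hc1, hc2⟩ := exists_hasDerivAt_eq_slope φ φ' hs0
      (fun c _ => (hder c).continuousAt.continuousWithinAt) (fun c _ => hder c)
    have hφb : ∀ c ∈ Icc (0 : ℝ) s, |φ c| ≤ pn * (ε * |t' - t|) := by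
      intro c hc
      have k3 : ‖x + c • en n‖ ≤ ‖x‖ + s := by
        refine (norm_add_le _ _).trans ?_
        rw [norm_smul, h.e1 n, mul_one, Real.norm_eq_abs, abs_of_nonneg hc.1]
        linarith [hc.2]
      have k4 := n3 (x + c • en n) k3
      have e1 : xn n + (x + (t' - t) • wn) + c • en n =
          xn n + (x + c • en n + (t' - t) • wn) := by abel
      have e2 : xn n + x + c • en n = xn n + (x + c • en n) := by abel
      simp only [hφ]
      rw [e1, e2]
      exact k4
    have hsl : |φ' c| ≤ pn * η := by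
      rw [hc2, sub_zero, abs_div, abs_of_pos hs0, div_le_iff₀ hs0]
      have k5 := hφb s ⟨hs0.le, le_rfl⟩
      have k6 := hφb 0 ⟨le_rfl, hs0.le⟩
      have k7 : |φ s - φ 0| ≤ pn * (ε * |t' - t|) + pn * (ε * |t' - t|) :=
        (abs_sub _ _).trans (add_le_add k5 k6)
      have k8 : 2 * (ε * |t' - t|) ≤ η * s := by
        have k9 : ε * (2 * (|t' - t| + 1)) = η * s := by
          rw [hε]; field_simp
        nlinarith
      nlinarith
    have hcp : 0 < c := hc1.1
    -- the values of zf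
    set y1 := x + (t' - t) • wn + c • en n with hy1
    set y2 := x + c • en n with hy2
    have hzz : |zf u (tn n) (xn n) (en n) t' y1 - zf u (tn n) (xn n) (en n) t y2| ≤ η := by
      have e1 : zf u (tn n) (xn n) (en n) t' y1 - zf u (tn n) (xn n) (en n) t y2 =
          -φ' c / pn := by
        unfold zf
        rw [← sub_div]
        congr 1
        simp only [hφ', hy1, hy2]
        rw [← add_assoc (xn n) _ (c • en n), ← add_assoc (xn n) x (c • en n)]
        ring
      rw [e1, abs_div, abs_neg, abs_of_pos hp, div_le_iff₀ hp]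
      linarith
    have hcn : ‖c • en n‖ = c := by
      rw [norm_smul, h.e1 n, mul_one, Real.norm_eq_abs, abs_of_pos hcp]
    have hny1 : ‖y1‖ ≤ R := by
      rw [hy1]
      refine (norm_add_le _ _).trans ?_
      have : ‖x + (t' - t) • wn‖ ≤ ‖x‖ + |t' - t| * W := by
        refine (norm_add_le _ _).trans ?_
        rw [norm_smul, Real.norm_eq_abs]
        have := mul_le_mul_of_nonneg_left hwW (abs_nonneg (t' - t))
        linarith
      rw [hcn]
      linarith [hc1.2, abs_nonneg t, abs_nonneg t']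
    have hny2 : ‖y2‖ ≤ R := by
      rw [hy2]
      refine (norm_add_le _ _).trans ?_
      rw [hcn]
      linarith [hc1.2, abs_nonneg t, abs_nonneg t']
    have m1 := n1 (t, y2) ⟨⟨by linarith [neg_abs_le t, norm_nonneg x, abs_nonneg t'], by simp⟩,
      by rw [mem_closedBall_zero_iff]; exact hny2⟩
    have m2 := n2 (t', y1) ⟨⟨by linarith [neg_abs_le t', norm_nonneg x, abs_nonneg t], by simp⟩,
      by rw [mem_closedBall_zero_iff]; exact hny1⟩
    have m3 := k2 (x := y2) (by
      rw [hy2, dist_eq_norm, add_sub_cancel_left, hcn]; linarith [hc1.2])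
    have m4 := k1 (x := y1) (by
      rw [hy1, dist_eq_norm]
      have e3 : x + (t' - t) • wn + c • en n - (x + (t' - t) • w) =
          (t' - t) • (wn - w) + c • en n := by rw [smul_sub]; abel
      rw [e3]
      refine (norm_add_le _ _).trans_lt ?_
      rw [hcn, norm_smul, Real.norm_eq_abs, ← dist_eq_norm]
      linarith [hc1.2])
    rw [Real.dist_eq] at m1 m2 m3 m4
    simp only at m1 m2
    have e1 := abs_lt.1 m1
    have e2 := abs_lt.1 m2
    have e3 := abs_lt.1 m3
    have e4 := abs_lt.1 m4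
    have e5 := abs_le.1 hzz
    rw [abs_le]
    constructor
    · linarith [e1.1, e2.1, e3.1, e4.1, e5.1, e1.2, e2.2, e3.2, e4.2, e5.2]
    · linarith [e1.1, e2.1, e3.1, e4.1, e5.1, e1.2, e2.2, e3.2, e4.2, e5.2]
  have h5 : |ζ t' (x + (t' - t) • w) - ζ t x| ≤ 0 := by
    refine le_of_forall_pos_le_add fun η hη => ?_
    have := hmain (η / 5) (by positivity)
    linarith
  exact sub_eq_zero.1 (abs_nonpos_iff.1 h5)

end Pool.Agent.H90.RF.LIBA
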